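import Pool.Agent.H609.RI.Stm

/-!
# One block
-/

set_option autoImplicit false

namespace Pool.Agent.H609.RI

open Finset
open Pool.Agent.H609.XP (Er Er_le Er_run Er_block run)

/-- **BK1.** -/
theorem t_BK1 : S_BK1 := by
  intro b p hb hp hp2 hpb
  have hpZ : Prime (p : ℤ) := Nat.prime_iff_prime_int.1 hp
  have hp1 : 2 ≤ p := hp.two_le
  have hpR1 : (1 : ℝ) ≤ p := by exact_mod_cast hp.one_le
  -- the order
  obtain ⟨t, ht⟩ : ∃ t, t = p - 1 := ⟨_, rfl⟩
  have ht1 : 1 ≤ t := by omega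
  obtain ⟨u, hu⟩ : ∃ u : ℤ, u = (b : ℤ) ^ t := ⟨_, rfl⟩
  have hu1 : (p : ℤ) ∣ u - 1 := by
    have := Fact.mk hp
    rw [← ZMod.intCast_zmod_eq_zero_iff_dvd]
    rw [hu]
    push_cast
    have h1 : (b : ZMod p) ≠ 0 := by
      rw [Ne, ZMod.natCast_eq_zero_iff]
      exact hpb
    rw [ht, ZMod.pow_card_sub_one_eq_one h1, sub_self]
  have hu0 : u - 1 ≠ 0 := by
    have h1 : (1 : ℤ) < u := by
      rw [hu]
      exact one_lt_pow₀ (by exact_mod_cast (by omega : 1 < b)) (by omega)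
    omega
  have hfin : FiniteMultiplicity (p : ℤ) (u - 1) := by
    rw [Int.finiteMultiplicity_iff]
    refine ⟨?_, hu0⟩
    simp only [Int.natAbs_natCast]
    omega
  obtain ⟨w, hw1, hw2⟩ := hfin.exists_eq_pow_mul_and_not_dvd
  obtain ⟨a, ha⟩ : ∃ a, a = multiplicity (p : ℤ) (u - 1) := ⟨_, rfl⟩
  rw [← ha] at hw1
  have huw : u = 1 + (p : ℤ) ^ a * w := by linarith
  have ha1 : 1 ≤ a := by
    by_contra hcon
    have h1 : a = 0 := by omega
    rw [h1, pow_zero, one_mul] at hw1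
    rw [hw1] at hu1
    exact hw2 hu1
  have hpa1 : (1 : ℝ) ≤ (p : ℝ) ^ a := one_le_pow₀ hpR1
  refine ⟨3 * (p : ℝ) ^ a + t + 1, by positivity, ?_⟩
  intro n g A r x V hV hx y hy0 hy1 s L hs hL
  have hprpos : (0 : ℝ) < (p : ℝ) ^ r := by positivity
  have hpr1 : (1 : ℝ) ≤ (p : ℝ) ^ r := one_le_pow₀ hpR1
  have hL0 : (0 : ℝ) ≤ L := Nat.cast_nonneg _
  have hg0 : (0 : ℝ) ≤ g := Nat.cast_nonneg _
  have ht0 : (0 : ℝ) ≤ t := Nat.cast_nonneg _
  have hLr0 : (0 : ℝ) ≤ L / (p : ℝ) ^ r := by positivity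
  rcases lt_or_ge r a with hra | hra
  · -- small `r`
    have h1 := Er_le x hy0 hy1 s L
    have h2 : (p : ℝ) ^ r ≤ (p : ℝ) ^ a := pow_le_pow_right₀ hpR1 hra.le
    have h3 : (L : ℝ) ≤ (p : ℝ) ^ a * (L / (p : ℝ) ^ r) := by
      rw [mul_div_assoc', le_div_iff₀ hprpos]
      nlinarith
    have h4 : (p : ℝ) ^ a * (L / (p : ℝ) ^ r) ≤
        (3 * (p : ℝ) ^ a + t + 1) * (L / (p : ℝ) ^ r + (p : ℝ) ^ r + g) := by
      apply mul_le_mul _ _ hLr0 (by positivity)
      · linarith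
      · linarith
    linarith
  · obtain ⟨P, hP⟩ : ∃ P, P = p ^ (r - a) := ⟨_, rfl⟩
    have hPpos : 0 < P := by rw [hP]; exact Nat.pow_pos hp.pos
    obtain ⟨T, hT⟩ : ∃ T, T = t * P := ⟨_, rfl⟩
    have hTpos : 0 < T := by rw [hT]; exact Nat.mul_pos ht1 hPpos
    have hcast : ((P : ℕ) : ℝ) = (p : ℝ) ^ (r - a) := by rw [hP]; push_cast; rfl
    have hmain := Er_block x hy0 hy1 hTpos (3 * t) (by positivity) n g A (by
      intro s' hs1 hs2
      rw [hT]
      apply Er_run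
      intro i hi
      obtain ⟨V', hV'⟩ : ∃ V' : ℤ, V' = (b : ℤ) ^ (s' - A + i) * V := ⟨_, rfl⟩
      have hVp : ¬ (p : ℤ) ∣ V' := by
        intro h
        rw [hV'] at h
        rcases hpZ.dvd_or_dvd h with h1 | h1
        · exact hpb (by exact_mod_cast hpZ.dvd_of_dvd_pow h1)
        · exact hV h1
      have hrun := run hp hp2 ha1 huw hw2 hra hVp (fun m => x (s' + (i + t * m))) (by
        intro m hm
        rw [← hP] at hm
        have hj : i + t * m < T := by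
          rw [hT]
          calc i + t * m < t + t * m := by omega
            _ = t * (m + 1) := by ring
            _ ≤ t * P := Nat.mul_le_mul_left _ hm
        obtain ⟨e, he⟩ : ∃ e, s' + (i + t * m) = A + e := ⟨s' + (i + t * m) - A, by omega⟩
        have h1 : V' * u ^ m = (b : ℤ) ^ e * V := by
          rw [hV', hu]
          have h2 : s' - A + i + t * m = e := by omega
          rw [← h2, pow_add _ (s' - A + i) (t * m), pow_mul]
          ring
        show |x (s' + (i + t * m)) - ((V' * u ^ m : ℤ) : ℝ) / (p : ℝ) ^ r| ≤ 1 / (2 * (p : ℝ) ^ r)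
        rw [h1, he]
        have h3 := hx e (by omega) (by omega)
        have h4 : (((b : ℤ) ^ e * V : ℤ) : ℝ) = (b : ℝ) ^ e * ((V : ℤ) : ℝ) := by push_cast; rfl
        rw [h4]
        exact h3) hy0 hy1
      rw [← hP, ← hcast] at hrun
      exact hrun) s L hs hL
    refine hmain.trans ?_
    have hPle : ((P : ℕ) : ℝ) ≤ (p : ℝ) ^ r := by
      rw [hcast]
      exact pow_le_pow_right₀ hpR1 (by omega)
    have hPR0 : (0 : ℝ) < P := by exact_mod_cast hPpos
    have htR : (1 : ℝ) ≤ t := by exact_mod_cast ht1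
    have hTR : ((T : ℕ) : ℝ) = t * P := by rw [hT]; push_cast; ring
    have hterm1 : 3 * (t : ℝ) * (L / T) = 3 * (p : ℝ) ^ a * (L / (p : ℝ) ^ r) := by
      rw [hTR, hcast]
      have h8 : (p : ℝ) ^ r = (p : ℝ) ^ a * (p : ℝ) ^ (r - a) := by
        rw [← pow_add]
        congr 1
        omega
      rw [h8]
      field_simp
    have hTle : (T : ℝ) ≤ t * (p : ℝ) ^ r := by
      rw [hTR]
      exact mul_le_mul_of_nonneg_left hPle (by positivity)
    rw [hterm1]
    have e1 : (0 : ℝ) ≤ 3 * (p : ℝ) ^ a := by positivity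
    have e2 : 0 ≤ (t + 1 : ℝ) * (L / (p : ℝ) ^ r) := by positivity
    have e3 : 0 ≤ (3 * (p : ℝ) ^ a + 1) * (p : ℝ) ^ r := by positivity
    have e4 : 0 ≤ (3 * (p : ℝ) ^ a + t) * (g : ℝ) := by positivity
    nlinarith

end Pool.Agent.H609.RI
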