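import Pool.Agent.H609.RI.Stm
import Pool.Agent.H609.XP.Root
import Pool.Agent.H609.GF.Ev

/-!
# The coefficients of `(1 + d ^ 2 x) ^ (1 / d)`
-/

set_option autoImplicit false

namespace Pool.Agent.H609.RI

namespace P_ROOT

open Finset PowerSeries
open Pool.Agent.H609.GF (Sm ev evA ev_poly)

lemma rec_coeff {d : ℕ} (hd : 1 ≤ d) {F : ℤ⟦X⟧} (hF : F ^ d = 1 + C ((d : ℤ) ^ 2 * 1) * X) (k : ℕ) :
    ((k : ℤ) + 1) * coeff (k + 1) F = (d : ℤ) * (1 - (d : ℤ) * k) * coeff k F := by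
  have hd0 : (d : ℤ) ≠ 0 := by exact_mod_cast (by omega : d ≠ 0)
  have h1 := congrArg (d⁄dX ℤ) hF
  rw [Derivation.leibniz_pow] at h1
  simp only [map_add, Derivation.leibniz, smul_eq_mul, mul_one, PowerSeries.derivative_C,
    PowerSeries.derivative_X, mul_zero, add_zero] at h1
  have h2 : (d⁄dX ℤ) (1 : ℤ⟦X⟧) = 0 := by
    exact Derivation.map_one_eq_zero _
  rw [h2, zero_add] at h1
  -- `d * (F ^ (d-1) * F') = C (d^2)`
  have h3 : (C ((d : ℤ) ^ 2) : ℤ⟦X⟧) * F =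
      C (d : ℤ) * ((1 + C ((d : ℤ) ^ 2 * 1) * X) * (d⁄dX ℤ) F) := by
    rw [← hF, ← h1, nsmul_eq_mul]
    have h4 : F ^ d = F ^ (d - 1) * F := by
      rw [← pow_succ]
      congr 1
      omega
    rw [h4]
    have h5 : ((d : ℕ) : ℤ⟦X⟧) = C (d : ℤ) := by simp
    rw [h5]
    ring
  have h4 := congrArg (coeff k) h3
  rw [PowerSeries.coeff_C_mul, PowerSeries.coeff_C_mul, add_mul, one_mul, map_add,
    PowerSeries.coeff_derivative] at h4
  have h5 : coeff k (C ((d : ℤ) ^ 2 * 1) * X * (d⁄dX ℤ) F) = (d : ℤ) ^ 2 * (k * coeff k F) := by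
    rw [mul_assoc, PowerSeries.coeff_C_mul, mul_one]
    congr 1
    cases k with
    | zero => simp
    | succ k =>
      rw [PowerSeries.coeff_succ_X_mul, PowerSeries.coeff_derivative]
      push_cast
      ring
  rw [h5] at h4
  have h6 : (d : ℤ) * ((d : ℤ) * coeff k F) = (d : ℤ) * (coeff (k + 1) F * ((k : ℤ) + 1) +
      (d : ℤ) ^ 2 * (k * coeff k F)) := by
    linear_combination h4
  have h7 := mul_left_cancel₀ hd0 h6
  linear_combination -h7

lemma bound {d : ℕ} (hd : 1 ≤ d) {a : ℕ → ℤ} (h0 : a 0 = 1)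
    (h1 : ∀ k : ℕ, ((k : ℤ) + 1) * a (k + 1) = (d : ℤ) * (1 - (d : ℤ) * k) * a k) (k : ℕ) :
    |a k| ≤ (d : ℤ) ^ (2 * k) := by
  have hd1 : (1 : ℤ) ≤ d := by exact_mod_cast hd
  induction k with
  | zero => simp [h0]
  | succ k ih =>
    have h2 := congrArg abs (h1 k)
    rw [abs_mul, abs_mul, abs_mul] at h2
    have hk : (0 : ℤ) ≤ k := by positivity
    have h3 : |((k : ℤ) + 1)| = k + 1 := abs_of_nonneg (by positivity)
    have h4 : |(d : ℤ)| = d := abs_of_nonneg (by positivity)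
    have h5 : |1 - (d : ℤ) * k| ≤ d * (k + 1) := by
      rw [abs_le]
      constructor
      · nlinarith
      · nlinarith
    rw [h3, h4] at h2
    have h6 : ((k : ℤ) + 1) * |a (k + 1)| ≤ (k + 1) * (d : ℤ) ^ (2 * (k + 1)) := by
      rw [h2]
      calc (d : ℤ) * |1 - (d : ℤ) * k| * |a k| ≤ (d : ℤ) * (d * (k + 1)) * (d : ℤ) ^ (2 * k) := by
            gcongr
        _ = _ := by ring
    exact le_of_mul_le_mul_left h6 (by positivity)

end P_ROOT

open Finset PowerSeries P_ROOT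
open Pool.Agent.H609.GF (Sm ev evA ev_poly)

theorem t_ROOT : S_ROOT := by
  intro d hd
  obtain ⟨F, hF1, hF2, -⟩ := Pool.Agent.H609.XP.exists_root (d := d) hd 1
  have hrec := fun k => rec_coeff hd hF1 k
  have h0 : coeff 0 F = 1 := by rw [coeff_zero_eq_constantCoeff_apply, hF2]
  have hbd := fun k => bound hd (a := fun k => coeff k F) h0 hrec k
  refine ⟨fun k => coeff k F, ⟨h0, hrec, hbd⟩, fun x hx hdx => ?_⟩
  have hdR : (0 : ℝ) < d := by exact_mod_cast hd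
  set θ : ℚ⟦X⟧ := F.map (Int.castRingHom ℚ) with hθ
  have hco : ∀ k, ((coeff k θ : ℚ) : ℝ) = ((coeff k F : ℤ) : ℝ) := by
    intro k
    rw [hθ, PowerSeries.coeff_map]
    simp
  have hterm : ∀ k, ‖((coeff k θ : ℚ) : ℝ) * x ^ k‖ ≤ (1 / 4 : ℝ) ^ k := by
    intro k
    rw [hco, norm_mul, norm_pow, Real.norm_eq_abs, Real.norm_eq_abs, abs_of_nonneg hx]
    have h1 : |((coeff k F : ℤ) : ℝ)| ≤ ((d : ℝ) ^ 2) ^ k := by
      rw [← pow_mul]
      exact_mod_cast hbd k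
    calc |((coeff k F : ℤ) : ℝ)| * x ^ k ≤ ((d : ℝ) ^ 2) ^ k * x ^ k := by gcongr
      _ = ((d : ℝ) ^ 2 * x) ^ k := by rw [mul_pow]
      _ ≤ _ := by
        apply pow_le_pow_left₀ (by positivity)
        linarith
  have hgeo : Summable fun k : ℕ => (1 / 4 : ℝ) ^ k :=
    summable_geometric_of_lt_one (by norm_num) (by norm_num)
  have hsm : Sm x θ := Summable.of_nonneg_of_le (fun k => norm_nonneg _) hterm hgeo
  set S : ℝ := ev x θ with hS
  have hsum : HasSum (fun k : ℕ => ((coeff k θ : ℚ) : ℝ) * x ^ k) S := hsm.of_norm.hasSum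
  have hSd : S ^ d = 1 + (d : ℝ) ^ 2 * x := by
    have h1 : ev x (θ ^ d) = ev x θ ^ d := by
      have := map_pow (evA x) ⟨θ, hsm⟩ d
      exact this
    have hθd : θ ^ d = 1 + C ((d : ℚ) ^ 2) * X := by
      rw [hθ, ← map_pow, hF1, map_add, map_one, map_mul, PowerSeries.map_C, PowerSeries.map_X]
      congr 3
      simp
    rw [hS, ← h1, hθd]
    have h2 := ev_poly x (1 + Polynomial.C ((d : ℚ) ^ 2) * Polynomial.X)
    have h3 : ((1 + Polynomial.C ((d : ℚ) ^ 2) * Polynomial.X : Polynomial ℚ) : ℚ⟦X⟧) =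
        1 + PowerSeries.C ((d : ℚ) ^ 2) * PowerSeries.X := by
      rw [Polynomial.coe_add, Polynomial.coe_one, Polynomial.coe_mul, Polynomial.coe_C,
        Polynomial.coe_X]
    rw [h3] at h2
    rw [h2]
    simp only [map_add, map_one, map_mul, Polynomial.aeval_C, Polynomial.aeval_X, eq_ratCast,
      Rat.cast_pow, Rat.cast_natCast]
  have hSpos : 0 < S := by
    have h1 : S = 1 + ∑' k : ℕ, ((coeff (k + 1) θ : ℚ) : ℝ) * x ^ (k + 1) := by
      have h2 := hsum.summable.tsum_eq_zero_add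
      rw [hsum.tsum_eq] at h2
      rw [h2, hco 0, h0]
      simp
    have h2 : ‖∑' k : ℕ, ((coeff (k + 1) θ : ℚ) : ℝ) * x ^ (k + 1)‖ ≤
        ∑' k : ℕ, (1 / 4 : ℝ) ^ (k + 1) := by
      refine tsum_of_norm_bounded (Summable.hasSum ?_) fun k => hterm (k + 1)
      exact (summable_nat_add_iff 1).2 hgeo
    have h3 : ∑' k : ℕ, (1 / 4 : ℝ) ^ (k + 1) = 1 / 3 := by
      simp only [pow_succ]
      rw [tsum_mul_right, tsum_geometric_of_lt_one (by norm_num) (by norm_num)]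
      norm_num
    rw [h3, Real.norm_eq_abs] at h2
    have h4 := (abs_le.1 h2).1
    rw [h1]
    linarith
  have hSeq : (1 + (d : ℝ) ^ 2 * x) ^ (1 / (d : ℝ)) = S := by
    rw [← hSd, ← Real.rpow_natCast, ← Real.rpow_mul hSpos.le, mul_one_div, div_self hdR.ne',
      Real.rpow_one]
  rw [hSeq]
  simpa only [hco] using hsum

end Pool.Agent.H609.RI
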