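import Mathlib

/-!
# The degree of `(A ^ d + 1) ^ (1 / d)` is `d`
-/

set_option autoImplicit false

namespace Pool.Agent.H609.RI

open Polynomial

lemma not_pow {A p : ℕ} (hp : 2 ≤ p) (hA : 1 ≤ A) (q : ℚ) : q ^ p ≠ ((A ^ p + 1 : ℕ) : ℚ) := by
  intro h
  have h1 := congrArg Rat.den h
  rw [Rat.den_pow, Rat.den_natCast] at h1
  have hd : q.den = 1 := by
    by_contra hne
    have h2 : 1 < q.den := lt_of_le_of_ne q.den_pos (Ne.symm hne)
    have := Nat.one_lt_pow (by omega : p ≠ 0) h2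
    omega
  have hq : q = (q.num : ℚ) := by
    rw [← Rat.num_div_den q, hd]
    simp
  have h3 : (q.num.natAbs) ^ p = A ^ p + 1 := by
    have h4 : q.num ^ p = ((A ^ p + 1 : ℕ) : ℤ) := by
      rw [hq] at h
      exact_mod_cast h
    have h5 := congrArg Int.natAbs h4
    rwa [Int.natAbs_pow, Int.natAbs_natCast] at h5
  have h6 : A < q.num.natAbs := by
    by_contra hle
    push Not at hle
    have := Nat.pow_le_pow_left hle p
    omega
  have h7 := Nat.pow_le_pow_left (Nat.succ_le_of_lt h6) p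
  have h8 : A ^ p + 1 < (A + 1) ^ p := by
    obtain ⟨e, rfl⟩ : ∃ e, p = e + 2 := ⟨p - 2, by omega⟩
    have h9 : A ^ (e + 1) + 1 ≤ (A + 1) ^ (e + 1) := by
      have : A ^ (e + 1) < (A + 1) ^ (e + 1) := Nat.pow_lt_pow_left (by omega) (by omega)
      omega
    calc A ^ (e + 2) + 1 < (A ^ (e + 1) + 1) * (A + 1) := by
          have : 1 ≤ A ^ (e + 1) := Nat.one_le_pow _ _ hA
          rw [show A ^ (e + 2) = A ^ (e + 1) * A by rw [← pow_succ]]
          nlinarith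
      _ ≤ (A + 1) ^ (e + 1) * (A + 1) := Nat.mul_le_mul_right _ h9
      _ = _ := by rw [← pow_succ]
  rw [Nat.succ_eq_add_one, h3] at h7
  omega

/-- the absolute value of the constant coefficient of the minimal polynomial -/
lemma pow_degree_rat {α : ℝ} (hα : 0 < α) {d : ℕ} (hd : 1 ≤ d) {c : ℚ} (hc : α ^ d = c) :
    ∃ r : ℚ, α ^ (minpoly ℚ α).natDegree = r := by
  have hint : IsIntegral ℚ α := by
    refine ⟨X ^ d - C c, monic_X_pow_sub_C _ (by omega), ?_⟩
    rw [eval₂_sub, eval₂_X_pow, eval₂_C, hc, eq_ratCast, sub_self]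
  set g := minpoly ℚ α with hg
  have hmon : g.Monic := minpoly.monic hint
  set G : ℂ[X] := g.map (algebraMap ℚ ℂ) with hG
  have hGmon : G.Monic := hmon.map _
  have hsplit : G.Splits := IsAlgClosed.splits G
  have h1 := hsplit.coeff_zero_eq_prod_roots_of_monic hGmon
  have hroots : ∀ z ∈ G.roots, ‖z‖ = α := by
    intro z hz
    have h2 : G.eval z = 0 := (mem_roots'.1 hz).2
    have h3 : g ∣ X ^ d - C c := by
      apply minpoly.dvd
      rw [map_sub, map_pow, aeval_X, aeval_C, hc, eq_ratCast, sub_self]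
    have h4 : G ∣ (X ^ d - C c : ℚ[X]).map (algebraMap ℚ ℂ) := Polynomial.map_dvd _ h3
    have h5 : ((X ^ d - C c : ℚ[X]).map (algebraMap ℚ ℂ)).eval z = 0 := by
      obtain ⟨q, hq⟩ := h4
      rw [hq, eval_mul, h2, zero_mul]
    rw [Polynomial.map_sub, Polynomial.map_pow, map_X, map_C, eval_sub, eval_pow, eval_X, eval_C,
      sub_eq_zero] at h5
    have h6 : ‖z‖ ^ d = α ^ d := by
      rw [← norm_pow, h5, hc, eq_ratCast]
      have h7 : (0 : ℝ) ≤ (c : ℝ) := by rw [← hc]; positivity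
      have h8 : ((c : ℚ) : ℂ) = (((c : ℚ) : ℝ) : ℂ) := by push_cast; rfl
      rw [h8, Complex.norm_real, Real.norm_eq_abs, abs_of_nonneg h7]
    exact (pow_left_inj₀ (norm_nonneg z) hα.le (by omega)).1 h6
  have hprod : ∀ s : Multiset ℂ, (∀ z ∈ s, ‖z‖ = α) → ‖s.prod‖ = α ^ Multiset.card s := by
    intro s
    induction s using Multiset.induction with
    | empty => intro _; simp
    | cons a s ih =>
      intro h
      rw [Multiset.prod_cons, norm_mul, h a (Multiset.mem_cons_self a s),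
        ih fun z hz => h z (Multiset.mem_cons_of_mem hz), Multiset.card_cons, pow_succ']
  have hcard : Multiset.card G.roots = g.natDegree := by
    rw [← hsplit.natDegree_eq_card_roots, hG, natDegree_map]
  refine ⟨|g.coeff 0|, ?_⟩
  have h2 : ‖G.coeff 0‖ = α ^ g.natDegree := by
    rw [h1, norm_mul, norm_pow, norm_neg, norm_one, one_pow, one_mul, hprod _ hroots, hcard]
  rw [← h2, hG, coeff_map, eq_ratCast]
  have h8 : ((g.coeff 0 : ℚ) : ℂ) = (((g.coeff 0 : ℚ) : ℝ) : ℂ) := by push_cast; rfl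
  rw [h8, Complex.norm_real, Real.norm_eq_abs]
  push_cast
  rfl

/-- the degree of `(A ^ d + 1) ^ (1 / d)` is `d` -/
theorem degree {A d : ℕ} (hd : 2 ≤ d) (hA : 1 ≤ A) :
    (minpoly ℚ (((A : ℝ) ^ d + 1) ^ (1 / (d : ℝ)))).natDegree = d := by
  set α : ℝ := ((A : ℝ) ^ d + 1) ^ (1 / (d : ℝ)) with hα
  have hpos : (0 : ℝ) < (A : ℝ) ^ d + 1 := by positivity
  have hα0 : 0 < α := Real.rpow_pos_of_pos hpos _
  have h1 : α ^ d = (A : ℝ) ^ d + 1 := by
    rw [hα, one_div]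
    exact Real.rpow_inv_natCast_pow hpos.le (by omega)
  have h1' : α ^ d = (((A ^ d + 1 : ℕ) : ℚ) : ℝ) := by rw [h1]; push_cast; rfl
  obtain ⟨r, hr⟩ := pow_degree_rat hα0 (by omega) h1'
  have hint : IsIntegral ℚ α := by
    refine ⟨X ^ d - C ((A ^ d + 1 : ℕ) : ℚ), monic_X_pow_sub_C _ (by omega), ?_⟩
    rw [eval₂_sub, eval₂_X_pow, eval₂_C, h1', eq_ratCast, sub_self]
  set k := (minpoly ℚ α).natDegree with hk
  have hk1 : 0 < k := minpoly.natDegree_pos hint
  have hkd : k ≤ d := by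
    have h2 : aeval α (X ^ d - C ((A ^ d + 1 : ℕ) : ℚ) : ℚ[X]) = 0 := by
      rw [map_sub, map_pow, aeval_X, aeval_C, h1', eq_ratCast, sub_self]
    have h3 := natDegree_le_of_dvd (minpoly.dvd ℚ α h2) (monic_X_pow_sub_C _ (by omega)).ne_zero
    rwa [natDegree_X_pow_sub_C] at h3
  by_contra hne
  have hlt : k < d := lt_of_le_of_ne hkd hne
  set e := Nat.gcd k d with he
  have he0 : 0 < e := Nat.gcd_pos_of_pos_left _ hk1
  have hek : e ≤ k := Nat.gcd_le_left _ hk1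
  obtain ⟨l, hl⟩ : e ∣ d := Nat.gcd_dvd_right _ _
  have hl2 : 2 ≤ l := by
    by_contra h
    have : l ≤ 1 := by omega
    have : e * l ≤ e * 1 := Nat.mul_le_mul_left _ this
    omega
  -- `α ^ e` is rational
  obtain ⟨q, hq⟩ : ∃ q : ℚ, α ^ e = q := by
    have h2 := Nat.gcd_eq_gcd_ab k d
    have h3 : α ^ (e : ℤ) = (α ^ k) ^ (Nat.gcdA k d) * (α ^ d) ^ (Nat.gcdB k d) := by
      rw [he, h2, zpow_add₀ hα0.ne', zpow_mul, zpow_mul, zpow_natCast, zpow_natCast]
    rw [zpow_natCast, hr, h1'] at h3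
    refine ⟨r ^ (Nat.gcdA k d) * ((A ^ d + 1 : ℕ) : ℚ) ^ (Nat.gcdB k d), ?_⟩
    rw [h3]
    push_cast
    rfl
  have h4 : q ^ l = (((A ^ e) ^ l + 1 : ℕ) : ℚ) := by
    have h5 : (q : ℝ) ^ l = (((A ^ d + 1 : ℕ) : ℚ) : ℝ) := by
      rw [← hq, ← pow_mul, ← hl, h1']
    have h6 : q ^ l = ((A ^ d + 1 : ℕ) : ℚ) := by exact_mod_cast h5
    rw [h6, ← pow_mul, ← hl]
  exact not_pow hl2 (Nat.one_le_pow _ _ hA) q h4

end Pool.Agent.H609.RI
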