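import Pool.Agent.H609.RI.Stm

/-!
# Project RI (helper609), task BK2: all blocks (helper740)
-/

set_option autoImplicit false

namespace Pool.Agent.H609.RI

open Finset
open Pool.Agent.H609.XP (Er Er_add Er_le)

namespace P_BK2

/-- the perturbation is small enough -/
lemma small {b p : ℕ} (hb : 2 ≤ b) (hp : 0 < p) {n t r w i : ℕ} (hr : r ≤ w * i)
    (ht : t + (4 + p * (w * i)) ≤ n) :
    8 * (b : ℝ) ^ t / (b : ℝ) ^ n ≤ 1 / (2 * (p : ℝ) ^ r) := by
  have hbR : (2 : ℝ) ≤ b := by exact_mod_cast hb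
  have hb0 : (0 : ℝ) < b := by linarith
  have hpR : (0 : ℝ) < p := by exact_mod_cast hp
  have hpr : (0 : ℝ) < (p : ℝ) ^ r := by positivity
  have h1 : (p : ℝ) ≤ 2 ^ p := by exact_mod_cast (Nat.lt_two_pow_self (n := p)).le
  have h2 : (p : ℝ) ^ r ≤ (2 : ℝ) ^ (p * r) := by
    rw [pow_mul]
    exact pow_le_pow_left₀ hpR.le h1 r
  have h3 : (2 : ℝ) ^ (4 + p * r) ≤ (b : ℝ) ^ (4 + p * (w * i)) := by
    calc (2 : ℝ) ^ (4 + p * r) ≤ (b : ℝ) ^ (4 + p * r) := pow_le_pow_left₀ (by norm_num) hbR _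
      _ ≤ (b : ℝ) ^ (4 + p * (w * i)) := by
        apply pow_le_pow_right₀ (by linarith)
        have := Nat.mul_le_mul_left p hr
        omega
  have h4 : (b : ℝ) ^ t * (b : ℝ) ^ (4 + p * (w * i)) ≤ (b : ℝ) ^ n := by
    rw [← pow_add]
    exact pow_le_pow_right₀ (by linarith) ht
  rw [div_le_div_iff₀ (by positivity) (by positivity), one_mul]
  have h5 : (2 : ℝ) ^ (4 + p * r) = 16 * (2 : ℝ) ^ (p * r) := by
    rw [pow_add]
    norm_num
  have hbt : (0 : ℝ) < (b : ℝ) ^ t := by positivity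
  calc 8 * (b : ℝ) ^ t * (2 * (p : ℝ) ^ r) = (b : ℝ) ^ t * (16 * (p : ℝ) ^ r) := by ring
    _ ≤ (b : ℝ) ^ t * (16 * (2 : ℝ) ^ (p * r)) := by gcongr
    _ = (b : ℝ) ^ t * (2 : ℝ) ^ (4 + p * r) := by rw [h5]
    _ ≤ (b : ℝ) ^ t * (b : ℝ) ^ (4 + p * (w * i)) := by gcongr
    _ ≤ (b : ℝ) ^ n := h4

end P_BK2

open P_BK2 in
/-- **BK2.** -/
theorem t_BK2 (h : S_BK1) : S_BK2 := by
  intro b p hb hp hodd hpb
  obtain ⟨C₁, hC₁, h1⟩ := h b p hb hp hodd hpb
  have hp2 : 2 ≤ p := hp.two_le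
  have hpR2 : (2 : ℝ) ≤ p := by exact_mod_cast hp2
  have hpR : (0 : ℝ) < p := by linarith
  refine ⟨1 + 2 * C₁ + C₁ * (4 + p), by positivity, ?_⟩
  intro w I n o x V r hw hn ho hx y hy0 hy1 N hN
  have hnR : (0 : ℝ) ≤ n := Nat.cast_nonneg _
  have hwR : (1 : ℝ) ≤ w := by exact_mod_cast hw
  obtain ⟨K, hK⟩ : ∃ K : ℝ, K = (p : ℝ) ^ (w * I) + (4 + p * (w * I)) := ⟨_, rfl⟩
  have hK0 : 0 ≤ K := by
    rw [hK]
    positivity
  -- one block
  have hblock : ∀ i, i + 1 ≤ I → ∀ L : ℕ, L ≤ n →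
      |Er x y (n * (i + 1) - o) L| ≤ C₁ * (n / 2 ^ i + K) := by
    intro i hi L hL
    obtain ⟨hV, hr1, hr2, hxi⟩ := hx (i + 1) (by omega) hi
    have h2 := h1 n (4 + p * (w * (i + 1))) (n * (i + 1) - o) (r (i + 1)) x (V (i + 1)) hV
      (fun t ht htg => (hxi t ht).trans (small hb (by omega) hr2 htg)) y hy0 hy1
      (n * (i + 1) - o) L le_rfl (by omega)
    refine h2.trans ?_
    apply mul_le_mul_of_nonneg_left _ hC₁.le
    have h3 : (L : ℝ) / (p : ℝ) ^ r (i + 1) ≤ n / 2 ^ i := by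
      have h4 : (2 : ℝ) ^ i ≤ (p : ℝ) ^ r (i + 1) := by
        calc (2 : ℝ) ^ i ≤ (2 : ℝ) ^ r (i + 1) := pow_le_pow_right₀ (by norm_num) (by omega)
          _ ≤ (p : ℝ) ^ r (i + 1) := pow_le_pow_left₀ (by norm_num) hpR2 _
      have h5 : (L : ℝ) ≤ n := by exact_mod_cast hL
      exact div_le_div₀ hnR h5 (by positivity) h4
    have hwi : w * (i + 1) ≤ w * I := Nat.mul_le_mul_left w hi
    have h6 : (p : ℝ) ^ r (i + 1) ≤ (p : ℝ) ^ (w * I) :=
      pow_le_pow_right₀ (by linarith) (hr2.trans hwi)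
    have h7 : ((4 + p * (w * (i + 1)) : ℕ) : ℝ) ≤ 4 + p * (w * I) := by
      have h8 : 4 + p * (w * (i + 1)) ≤ 4 + p * (w * I) :=
        Nat.add_le_add_left (Nat.mul_le_mul_left p hwi) 4
      exact_mod_cast h8
    rw [hK]
    linarith
  -- all blocks
  have hall : ∀ J, J ≤ I → ∀ N : ℕ, N + o ≤ n * (J + 1) →
      |Er x y 0 N| ≤ n + C₁ * (n * (2 - 2 / 2 ^ J) + J * K) := by
    intro J
    induction J with
    | zero =>
      intro _ N hN
      have h2 := Er_le x hy0 hy1 0 N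
      have h3 : (N : ℝ) ≤ n := by exact_mod_cast (by omega : N ≤ n)
      have h4 : (n : ℝ) + C₁ * (n * (2 - 2 / 2 ^ 0) + ((0 : ℕ) : ℝ) * K) = n := by
        push_cast
        ring
      rw [h4]
      exact h2.trans h3
    | succ J ih =>
      intro hJ N hN
      have hstep : (n : ℝ) * (2 - 2 / 2 ^ (J + 1)) + ((J + 1 : ℕ) : ℝ) * K =
          (n * (2 - 2 / 2 ^ J) + J * K) + (n / 2 ^ J + K) := by
        rw [pow_succ]
        push_cast
        field_simp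
        ring
      rw [hstep, mul_add, ← add_assoc]
      have hpos : 0 ≤ C₁ * (n / 2 ^ J + K) := by positivity
      rcases le_or_gt (N + o) (n * (J + 1)) with h2 | h2
      · have h3 := ih (by omega) N h2
        linarith
      · have hno : o ≤ n * (J + 1) := by
          have : n * 1 ≤ n * (J + 1) := Nat.mul_le_mul_left n (by omega)
          omega
        have hexp : n * (J + 1 + 1) = n * (J + 1) + n := by ring
        obtain ⟨L, rfl⟩ : ∃ L, N = (n * (J + 1) - o) + L := ⟨N - (n * (J + 1) - o), by omega⟩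
        rw [Er_add, Nat.zero_add]
        have h3 := ih (by omega) (n * (J + 1) - o) (by omega)
        have h4 := hblock J (by omega) L (by omega)
        exact (abs_add_le _ _).trans (add_le_add h3 h4)
  have hfin := hall I le_rfl N hN
  refine hfin.trans ?_
  have hI : (0 : ℝ) ≤ I := Nat.cast_nonneg _
  obtain ⟨Y, hY⟩ : ∃ Y : ℝ, Y = ((I : ℝ) + 1) * (w * (I + 1) + (p : ℝ) ^ (w * I)) := ⟨_, rfl⟩
  have hY0 : 0 ≤ Y := by
    rw [hY]
    positivity
  have hIK : (I : ℝ) * K ≤ (4 + p) * Y := by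
    have hP : (0 : ℝ) ≤ (p : ℝ) ^ (w * I) := by positivity
    rw [hK, hY]
    have e1 : (I : ℝ) * (p : ℝ) ^ (w * I) ≤ (4 + p) * ((I + 1) * (p : ℝ) ^ (w * I)) := by
      have e2 : (I : ℝ) * (p : ℝ) ^ (w * I) ≤ (I + 1) * (p : ℝ) ^ (w * I) := by
        apply mul_le_mul_of_nonneg_right _ hP
        linarith
      have e3 : 0 ≤ ((I : ℝ) + 1) * (p : ℝ) ^ (w * I) := by positivity
      nlinarith
    have e4 : (I : ℝ) * (4 + p * (w * I)) ≤ (4 + p) * ((I + 1) * (w * (I + 1))) := by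
      have e5 : (I : ℝ) ≤ (I + 1) * (w * (I + 1)) := by
        have e9 : (1 : ℝ) ≤ w * (I + 1) := one_le_mul_of_one_le_of_one_le hwR (by linarith)
        have e10 : ((I : ℝ) + 1) * 1 ≤ (I + 1) * (w * (I + 1)) :=
          mul_le_mul_of_nonneg_left e9 (by linarith)
        linarith
      have e6 : (I : ℝ) * (w * I) ≤ (I + 1) * (w * (I + 1)) := by
        have e7 : (w : ℝ) * I ≤ w * (I + 1) := by nlinarith
        exact mul_le_mul (by linarith) e7 (by positivity) (by positivity)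
      have e8 : (p : ℝ) * ((I : ℝ) * (w * I)) ≤ p * ((I + 1) * (w * (I + 1))) :=
        mul_le_mul_of_nonneg_left e6 hpR.le
      nlinarith
    calc (I : ℝ) * ((p : ℝ) ^ (w * I) + (4 + p * (w * I))) =
        (I : ℝ) * (p : ℝ) ^ (w * I) + (I : ℝ) * (4 + p * (w * I)) := by ring
      _ ≤ (4 + p) * ((I + 1) * (p : ℝ) ^ (w * I)) + (4 + p) * ((I + 1) * (w * (I + 1))) :=
        add_le_add e1 e4
      _ = (4 + p) * ((I + 1) * (w * (I + 1) + (p : ℝ) ^ (w * I))) := by ring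
  have h2 : (n : ℝ) * (2 - 2 / 2 ^ I) ≤ 2 * n := by
    have : (0 : ℝ) ≤ 2 / 2 ^ I := by positivity
    nlinarith
  rw [← hY]
  have h3 : C₁ * (n * (2 - 2 / 2 ^ I) + I * K) ≤ C₁ * (2 * n + (4 + p) * Y) :=
    mul_le_mul_of_nonneg_left (add_le_add h2 hIK) hC₁.le
  have h4 : (1 + 2 * C₁ + C₁ * (4 + p)) * (n + Y) =
      (n + C₁ * (2 * n + (4 + p) * Y)) + ((1 + 2 * C₁) * Y + C₁ * (4 + p) * n) := by ring
  rw [h4]
  have h5 : 0 ≤ (1 + 2 * C₁) * Y + C₁ * (4 + p) * n := by positivity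
  linarith

end Pool.Agent.H609.RI
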