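import Pool.Agent.H609.RI.Stm2

/-!
# One block, general denominators
-/

set_option autoImplicit false

namespace Pool.Agent.H609.RI

open Finset
open Pool.Agent.H609.XP (Er Er_le Er_run Er_block)

/-- **BKD1.** -/
theorem t_BKD1 (h1 : S_RUN2) (h2 : S_ORD2) : S_BKD1 := by
  intro b P p hb hP1 hbP hp hpP
  have hpZ : Prime (p : ℤ) := Nat.prime_iff_prime_int.1 hp
  have hpR1 : (1 : ℝ) ≤ p := by exact_mod_cast hp.one_le
  have hpb : ¬ p ∣ b := by
    intro h
    have h3 : p ∣ Nat.gcd b P := Nat.dvd_gcd h hpP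
    rw [hbP] at h3
    exact hp.one_lt.ne' (Nat.dvd_one.1 h3)
  obtain ⟨E, a, hE1, ha1, ha2, hEH⟩ := h2 b P p hb hP1 hbP hp hpP
  have hpa1 : (1 : ℝ) ≤ (p : ℝ) ^ a := one_le_pow₀ hpR1
  have hE0 : (0 : ℝ) ≤ E := Nat.cast_nonneg _
  refine ⟨3 * (p : ℝ) ^ a + E + 1, by positivity, ?_⟩
  intro n g A r H k x V hH1 hHk hpH hV hx y hy0 hy1 s L hs hL
  have hHR1 : (1 : ℝ) ≤ H := by exact_mod_cast hH1
  have hprpos : (0 : ℝ) < (p : ℝ) ^ r := by positivity
  have hpr1 : (1 : ℝ) ≤ (p : ℝ) ^ r := one_le_pow₀ hpR1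
  have hL0 : (0 : ℝ) ≤ L := Nat.cast_nonneg _
  have hg0 : (0 : ℝ) ≤ g := Nat.cast_nonneg _
  have hLr0 : (0 : ℝ) ≤ L / (p : ℝ) ^ r := by positivity
  have hpH0 : (0 : ℝ) ≤ (p : ℝ) ^ r * H := by positivity
  rcases lt_or_ge r a with hra | hra
  · -- small `r`
    have h3 := Er_le x hy0 hy1 s L
    have h4 : (p : ℝ) ^ r ≤ (p : ℝ) ^ a := pow_le_pow_right₀ hpR1 hra.le
    have h5 : (L : ℝ) ≤ (p : ℝ) ^ a * (L / (p : ℝ) ^ r) := by
      rw [mul_div_assoc', le_div_iff₀ hprpos]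
      nlinarith
    have h6 : (p : ℝ) ^ a * (L / (p : ℝ) ^ r) ≤
        (3 * (p : ℝ) ^ a + E + 1) * (L / (p : ℝ) ^ r + (p : ℝ) ^ r * H + g) := by
      apply mul_le_mul _ _ hLr0 (by positivity)
      · linarith
      · linarith
    linarith
  · obtain ⟨w, huw, hw2, hHu⟩ := hEH H k hH1 hHk hpH
    obtain ⟨t, ht⟩ : ∃ t, t = E * H := ⟨_, rfl⟩
    have ht1 : 1 ≤ t := by rw [ht]; exact Nat.mul_pos hE1 hH1
    obtain ⟨u, hu⟩ : ∃ u : ℤ, u = (b : ℤ) ^ t := ⟨_, rfl⟩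
    rw [← ht, ← hu] at huw hHu
    obtain ⟨Q, hQ⟩ : ∃ Q, Q = p ^ (r - a) := ⟨_, rfl⟩
    have hQpos : 0 < Q := by rw [hQ]; exact Nat.pow_pos hp.pos
    obtain ⟨T, hT⟩ : ∃ T, T = t * Q := ⟨_, rfl⟩
    have hTpos : 0 < T := by rw [hT]; exact Nat.mul_pos ht1 hQpos
    have hcast : ((Q : ℕ) : ℝ) = (p : ℝ) ^ (r - a) := by rw [hQ]; push_cast; rfl
    have hmain := Er_block x hy0 hy1 hTpos (3 * t) (by positivity) n g A (by
      intro s' hs1 hs2
      rw [hT]
      apply Er_run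
      intro i hi
      obtain ⟨V', hV'⟩ : ∃ V' : ℤ, V' = (b : ℤ) ^ (s' - A + i) * V := ⟨_, rfl⟩
      have hVp : ¬ (p : ℤ) ∣ V' := by
        intro h
        rw [hV'] at h
        rcases hpZ.dvd_or_dvd h with h3 | h3
        · exact hpb (by exact_mod_cast hpZ.dvd_of_dvd_pow h3)
        · exact hV h3
      have hrun := h1 p hp a u w H ha1 ha2 huw hw2 hH1 hpH hHu r hra V' hVp
        (fun m => x (s' + (i + t * m))) (by
        intro m hm
        rw [← hQ] at hm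
        have hj : i + t * m < T := by
          rw [hT]
          calc i + t * m < t + t * m := by omega
            _ = t * (m + 1) := by ring
            _ ≤ t * Q := Nat.mul_le_mul_left _ hm
        obtain ⟨e, he⟩ : ∃ e, s' + (i + t * m) = A + e := ⟨s' + (i + t * m) - A, by omega⟩
        have h3 : V' * u ^ m = (b : ℤ) ^ e * V := by
          rw [hV', hu]
          have h4 : s' - A + i + t * m = e := by omega
          rw [← h4, pow_add _ (s' - A + i) (t * m), pow_mul]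
          ring
        show |x (s' + (i + t * m)) - ((V' * u ^ m : ℤ) : ℝ) / ((p : ℝ) ^ r * H)| ≤
          1 / (2 * ((p : ℝ) ^ r * H))
        rw [h3, he]
        have h5 := hx e (by omega) (by omega)
        have h6 : (((b : ℤ) ^ e * V : ℤ) : ℝ) = (b : ℝ) ^ e * ((V : ℤ) : ℝ) := by push_cast; rfl
        rw [h6]
        exact h5) y hy0 hy1
      rw [← hQ, ← hcast] at hrun
      exact hrun) s L hs hL
    refine hmain.trans ?_
    have hQle : ((Q : ℕ) : ℝ) ≤ (p : ℝ) ^ r := by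
      rw [hcast]
      exact pow_le_pow_right₀ hpR1 (by omega)
    have hQR0 : (0 : ℝ) < Q := by exact_mod_cast hQpos
    have htR : (1 : ℝ) ≤ t := by exact_mod_cast ht1
    have htR2 : (t : ℝ) = E * H := by rw [ht]; push_cast; ring
    have hTR : ((T : ℕ) : ℝ) = t * Q := by rw [hT]; push_cast; ring
    have hterm1 : 3 * (t : ℝ) * (L / T) = 3 * (p : ℝ) ^ a * (L / (p : ℝ) ^ r) := by
      rw [hTR, hcast]
      have h8 : (p : ℝ) ^ r = (p : ℝ) ^ a * (p : ℝ) ^ (r - a) := by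
        rw [← pow_add]
        congr 1
        omega
      rw [h8]
      field_simp
    have hTle : (T : ℝ) ≤ E * ((p : ℝ) ^ r * H) := by
      rw [hTR, htR2]
      calc (E : ℝ) * H * Q ≤ E * H * (p : ℝ) ^ r :=
            mul_le_mul_of_nonneg_left hQle (by positivity)
        _ = E * ((p : ℝ) ^ r * H) := by ring
    rw [hterm1]
    have e2 : 0 ≤ (E + 1 : ℝ) * (L / (p : ℝ) ^ r) := by positivity
    have e3 : 0 ≤ (3 * (p : ℝ) ^ a + 1) * ((p : ℝ) ^ r * H) := by positivity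
    have e4 : 0 ≤ (3 * (p : ℝ) ^ a + E) * (g : ℝ) := by positivity
    nlinarith

end Pool.Agent.H609.RI
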