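import Pool.Agent.H609.RI.Stm2

/-!
# Project RI (helper609), task BKD2: all blocks (helper404, adapted from helper740's BK2)
-/

set_option autoImplicit false

namespace Pool.Agent.H609.RI

open Finset
open Pool.Agent.H609.XP (Er Er_add Er_le)

namespace P_BKD2

/-- the perturbation is small enough -/
lemma small {b W : ℕ} (hb : 2 ≤ b) {n t i D : ℕ} (hD0 : 1 ≤ D) (hD : D ≤ W ^ i)
    (ht : t + (4 + W * i) ≤ n) :
    8 * (b : ℝ) ^ t / (b : ℝ) ^ n ≤ 1 / (2 * (D : ℝ)) := by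
  have hbR : (2 : ℝ) ≤ b := by exact_mod_cast hb
  have hb0 : (0 : ℝ) < b := by linarith
  have hDR : (1 : ℝ) ≤ D := by exact_mod_cast hD0
  have h1 : (W : ℝ) ≤ 2 ^ W := by exact_mod_cast (Nat.lt_two_pow_self (n := W)).le
  have h2 : (D : ℝ) ≤ (2 : ℝ) ^ (W * i) := by
    calc (D : ℝ) ≤ (W : ℝ) ^ i := by exact_mod_cast hD
      _ ≤ ((2 : ℝ) ^ W) ^ i := pow_le_pow_left₀ (Nat.cast_nonneg _) h1 i
      _ = (2 : ℝ) ^ (W * i) := by rw [pow_mul]
  have h3 : (2 : ℝ) ^ (4 + W * i) ≤ (b : ℝ) ^ (4 + W * i) :=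
    pow_le_pow_left₀ (by norm_num) hbR _
  have h4 : (b : ℝ) ^ t * (b : ℝ) ^ (4 + W * i) ≤ (b : ℝ) ^ n := by
    rw [← pow_add]
    exact pow_le_pow_right₀ (by linarith) ht
  rw [div_le_div_iff₀ (by positivity) (by positivity), one_mul]
  have h5 : (2 : ℝ) ^ (4 + W * i) = 16 * (2 : ℝ) ^ (W * i) := by
    rw [pow_add]
    norm_num
  have hbt : (0 : ℝ) < (b : ℝ) ^ t := by positivity
  calc 8 * (b : ℝ) ^ t * (2 * (D : ℝ)) = (b : ℝ) ^ t * (16 * (D : ℝ)) := by ring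
    _ ≤ (b : ℝ) ^ t * (16 * (2 : ℝ) ^ (W * i)) := by gcongr
    _ = (b : ℝ) ^ t * (2 : ℝ) ^ (4 + W * i) := by rw [h5]
    _ ≤ (b : ℝ) ^ t * (b : ℝ) ^ (4 + W * i) := by gcongr
    _ ≤ (b : ℝ) ^ n := h4

end P_BKD2

open P_BKD2 in
/-- **BKD2.** -/
theorem t_BKD2 (h : S_BKD1) : S_BKD2 := by
  intro b P p hb hP hbP hp hpP
  obtain ⟨C₁, hC₁, h1⟩ := h b P p hb hP hbP hp hpP
  have hp2 : 2 ≤ p := hp.two_le
  have hpR2 : (2 : ℝ) ≤ p := by exact_mod_cast hp2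
  have hpR : (0 : ℝ) < p := by linarith
  refine ⟨2 + 7 * C₁, by positivity, ?_⟩
  intro h W I n o x V r H hW hn ho hx y hy0 hy1 N hN
  have hnR : (0 : ℝ) ≤ n := Nat.cast_nonneg _
  have hhR : (0 : ℝ) ≤ h := Nat.cast_nonneg _
  have hWR : (1 : ℝ) ≤ W := by exact_mod_cast hW
  obtain ⟨K, hK⟩ : ∃ K : ℝ, K = (h : ℝ) * I + C₁ * ((W : ℝ) ^ I + (4 + W * I)) := ⟨_, rfl⟩
  have hK0 : 0 ≤ K := by
    rw [hK]
    positivity
  -- one block
  have hblock : ∀ i, i + 1 ≤ I → ∀ L : ℕ, L ≤ n →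
      |Er x y (n * (i + 1) - o) L| ≤ C₁ * (n / 2 ^ i) + K := by
    intro i hi L hL
    obtain ⟨hH1, ⟨k, hHk⟩, hpH, hV, hr1, hr2, hxi⟩ := hx (i + 1) (by omega) hi
    have hhi : (h : ℝ) * ((i + 1 : ℕ) : ℝ) ≤ (h : ℝ) * I :=
      mul_le_mul_of_nonneg_left (by exact_mod_cast hi) hhR
    rcases le_or_gt L (h * (i + 1)) with hLh | hLh
    · have h2 := Er_le x hy0 hy1 (n * (i + 1) - o) L
      have h3 : (L : ℝ) ≤ (h : ℝ) * ((i + 1 : ℕ) : ℝ) := by exact_mod_cast hLh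
      have h4 : (h : ℝ) * I ≤ K := by
        rw [hK]
        have : 0 ≤ C₁ * ((W : ℝ) ^ I + (4 + W * I)) := by positivity
        linarith
      have h5 : 0 ≤ C₁ * ((n : ℝ) / 2 ^ i) := by positivity
      linarith
    · obtain ⟨L', rfl⟩ : ∃ L', L = h * (i + 1) + L' := ⟨L - h * (i + 1), by omega⟩
      rw [Er_add]
      have hD0 : 1 ≤ p ^ r (i + 1) * H (i + 1) :=
        Nat.mul_le_mul (Nat.one_le_pow _ _ (by omega)) hH1
      have h2 := h1 (n - h * (i + 1)) (4 + W * (i + 1)) (n * (i + 1) - o + h * (i + 1))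
        (r (i + 1)) (H (i + 1)) k x (V (i + 1)) hH1 hHk hpH hV
        (fun t ht htg => by
          have e1 := hxi (h * (i + 1) + t) (by omega) (by omega)
          have e2 : h * (i + 1) + t - h * (i + 1) = t := by omega
          rw [e2, ← Nat.add_assoc] at e1
          refine e1.trans ?_
          have e3 := small (b := b) (W := W) (n := n) (t := h * (i + 1) + t) (i := i + 1) hb hD0
            hr2 (by omega)
          push_cast at e3
          exact e3)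
        y hy0 hy1 (n * (i + 1) - o + h * (i + 1)) L' le_rfl (by omega)
      have h3 := Er_le x hy0 hy1 (n * (i + 1) - o) (h * (i + 1))
      have h4 : ((h * (i + 1) : ℕ) : ℝ) ≤ (h : ℝ) * I := by
        push_cast
        push_cast at hhi
        exact hhi
      have h5 : (L' : ℝ) / (p : ℝ) ^ r (i + 1) ≤ n / 2 ^ i := by
        have h6 : (2 : ℝ) ^ i ≤ (p : ℝ) ^ r (i + 1) := by
          calc (2 : ℝ) ^ i ≤ (2 : ℝ) ^ r (i + 1) := pow_le_pow_right₀ (by norm_num) (by omega)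
            _ ≤ (p : ℝ) ^ r (i + 1) := pow_le_pow_left₀ (by norm_num) hpR2 _
        have h7 : (L' : ℝ) ≤ n := by exact_mod_cast (by omega : L' ≤ n)
        exact div_le_div₀ hnR h7 (by positivity) h6
      have h8 : (p : ℝ) ^ r (i + 1) * H (i + 1) ≤ (W : ℝ) ^ I := by
        have h9 : p ^ r (i + 1) * H (i + 1) ≤ W ^ I := hr2.trans (Nat.pow_le_pow_right hW hi)
        exact_mod_cast h9
      have h10 : ((4 + W * (i + 1) : ℕ) : ℝ) ≤ 4 + W * I := by
        have h11 : 4 + W * (i + 1) ≤ 4 + W * I :=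
          Nat.add_le_add_left (Nat.mul_le_mul_left W hi) 4
        exact_mod_cast h11
      have h12 : C₁ * ((L' : ℝ) / (p : ℝ) ^ r (i + 1) + (p : ℝ) ^ r (i + 1) * H (i + 1) +
          ((4 + W * (i + 1) : ℕ) : ℝ)) ≤ C₁ * (n / 2 ^ i) + C₁ * ((W : ℝ) ^ I + (4 + W * I)) := by
        rw [← mul_add]
        apply mul_le_mul_of_nonneg_left _ hC₁.le
        linarith
      refine (abs_add_le _ _).trans ?_
      rw [hK]
      linarith
  -- all blocks
  have hall : ∀ J, J ≤ I → ∀ N : ℕ, N + o ≤ n * (J + 1) →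
      |Er x y 0 N| ≤ n + (C₁ * (n * (2 - 2 / 2 ^ J)) + J * K) := by
    intro J
    induction J with
    | zero =>
      intro _ N hN
      have h2 := Er_le x hy0 hy1 0 N
      have h3 : (N : ℝ) ≤ n := by exact_mod_cast (by omega : N ≤ n)
      have h4 : (n : ℝ) + (C₁ * (n * (2 - 2 / 2 ^ 0)) + ((0 : ℕ) : ℝ) * K) = n := by
        push_cast
        ring
      rw [h4]
      exact h2.trans h3
    | succ J ih =>
      intro hJ N hN
      have hstep : C₁ * ((n : ℝ) * (2 - 2 / 2 ^ (J + 1))) + ((J + 1 : ℕ) : ℝ) * K =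
          (C₁ * (n * (2 - 2 / 2 ^ J)) + J * K) + (C₁ * (n / 2 ^ J) + K) := by
        rw [pow_succ]
        push_cast
        field_simp
        ring
      rw [hstep, ← add_assoc]
      have hpos : 0 ≤ C₁ * (n / 2 ^ J) + K := by positivity
      rcases le_or_gt (N + o) (n * (J + 1)) with h2 | h2
      · have h3 := ih (by omega) N h2
        linarith
      · have hno : o ≤ n * (J + 1) := by
          have : n * 1 ≤ n * (J + 1) := Nat.mul_le_mul_left n (by omega)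
          omega
        have hexp : n * (J + 1 + 1) = n * (J + 1) + n := by ring
        obtain ⟨L, rfl⟩ : ∃ L, N = (n * (J + 1) - o) + L := ⟨N - (n * (J + 1) - o), by omega⟩
        rw [Er_add, Nat.zero_add]
        have h3 := ih (by omega) (n * (J + 1) - o) (by omega)
        have h4 := hblock J (by omega) L (by omega)
        exact (abs_add_le _ _).trans (add_le_add h3 h4)
  have hfin := hall I le_rfl N hN
  refine hfin.trans ?_
  have hI : (0 : ℝ) ≤ I := Nat.cast_nonneg _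
  obtain ⟨Y, hY⟩ : ∃ Y : ℝ, Y = ((I : ℝ) + 1) * ((h + W) * (I + 1) + (W : ℝ) ^ I) := ⟨_, rfl⟩
  have hPW : (0 : ℝ) ≤ (W : ℝ) ^ I := by positivity
  have hY0 : 0 ≤ Y := by
    rw [hY]
    positivity
  have hY1 : Y = (h : ℝ) * ((I + 1) * (I + 1)) + W * ((I + 1) * (I + 1)) +
      (I + 1) * (W : ℝ) ^ I := by
    rw [hY]
    ring
  have a1 : (I : ℝ) * ((h : ℝ) * I) ≤ Y := by
    have b1 : (h : ℝ) * (I * I) ≤ (h : ℝ) * ((I + 1) * (I + 1)) :=
      mul_le_mul_of_nonneg_left (by nlinarith) hhR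
    have b2 : 0 ≤ (W : ℝ) * (((I : ℝ) + 1) * (I + 1)) := by positivity
    have b3 : 0 ≤ ((I : ℝ) + 1) * (W : ℝ) ^ I := by positivity
    rw [hY1]
    calc (I : ℝ) * ((h : ℝ) * I) = (h : ℝ) * (I * I) := by ring
      _ ≤ _ := by linarith
  have a2 : (I : ℝ) * ((W : ℝ) ^ I + (4 + W * I)) ≤ 5 * Y := by
    have b1 : (I : ℝ) * (W : ℝ) ^ I ≤ (I + 1) * (W : ℝ) ^ I :=
      mul_le_mul_of_nonneg_right (by linarith) hPW
    have b2 : (I : ℝ) ≤ W * ((I + 1) * (I + 1)) := by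
      have c1 : (I : ℝ) ≤ (I + 1) * (I + 1) := by nlinarith
      have c2 : 1 * (((I : ℝ) + 1) * (I + 1)) ≤ W * ((I + 1) * (I + 1)) :=
        mul_le_mul_of_nonneg_right hWR (by positivity)
      linarith
    have b3 : (W : ℝ) * (I * I) ≤ W * ((I + 1) * (I + 1)) :=
      mul_le_mul_of_nonneg_left (by nlinarith) (by linarith)
    have b4 : 0 ≤ (h : ℝ) * (((I : ℝ) + 1) * (I + 1)) := by positivity
    have b5 : 0 ≤ ((I : ℝ) + 1) * (W : ℝ) ^ I := by positivity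
    rw [hY1]
    calc (I : ℝ) * ((W : ℝ) ^ I + (4 + W * I)) =
        (I : ℝ) * (W : ℝ) ^ I + 4 * I + W * (I * I) := by ring
      _ ≤ _ := by linarith
  have a3 : (I : ℝ) * K ≤ Y + 5 * C₁ * Y := by
    rw [hK]
    have b1 := mul_le_mul_of_nonneg_left a2 hC₁.le
    calc (I : ℝ) * ((h : ℝ) * I + C₁ * ((W : ℝ) ^ I + (4 + W * I))) =
        (I : ℝ) * ((h : ℝ) * I) + C₁ * ((I : ℝ) * ((W : ℝ) ^ I + (4 + W * I))) := by ring
      _ ≤ Y + C₁ * (5 * Y) := add_le_add a1 b1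
      _ = Y + 5 * C₁ * Y := by ring
  have a4 : C₁ * ((n : ℝ) * (2 - 2 / 2 ^ I)) ≤ 2 * C₁ * n := by
    have b1 : (0 : ℝ) ≤ 2 / 2 ^ I := by positivity
    have b2 : (n : ℝ) * (2 - 2 / 2 ^ I) ≤ n * 2 := mul_le_mul_of_nonneg_left (by linarith) hnR
    calc C₁ * ((n : ℝ) * (2 - 2 / 2 ^ I)) ≤ C₁ * (n * 2) := mul_le_mul_of_nonneg_left b2 hC₁.le
      _ = 2 * C₁ * n := by ring
  rw [← hY]
  have a5 : (2 + 7 * C₁) * (n + Y) =
      (n + (2 * C₁ * n + (Y + 5 * C₁ * Y))) + ((1 + 5 * C₁) * n + (1 + 2 * C₁) * Y) := by ring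
  rw [a5]
  have a6 : 0 ≤ (1 + 5 * C₁) * (n : ℝ) + (1 + 2 * C₁) * Y := by positivity
  linarith

end Pool.Agent.H609.RI

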