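import Pool.Agent.H609.RI.Stm

/-!
# FB: the square roots of `(p ^ m b ^ n) ^ 2 + 4`
-/

set_option autoImplicit false

namespace Pool.Agent.H609.RI

open Finset
open Pool.Agent.H609.XP (Er)

namespace P_FB

/-- the estimate at one place -/
theorem point (b p m n i t : ℕ) (hb : 2 ≤ b) (hp : 3 ≤ p) (hm : 1 ≤ m) (hi : 1 ≤ i)
    (S : ℝ) (Mi V : ℤ) (r : ℕ)
    (hS : Real.sqrt (((p : ℝ) ^ m * (b : ℝ) ^ n) ^ 2 + 4) = (p : ℝ) ^ m * (b : ℝ) ^ n * S)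
    (hT : |S * ((p : ℝ) ^ (2 * m) * (b : ℝ) ^ (2 * n)) ^ i - (Mi : ℝ)| ≤
      2 * (2 : ℝ) ^ (2 * (i + 1)) / ((p : ℝ) ^ (2 * m) * (b : ℝ) ^ (2 * n)))
    (hV : (Mi : ℝ) * (p : ℝ) ^ m * (p : ℝ) ^ r = (V : ℝ) * (p : ℝ) ^ (2 * m * i)) :
    |(b : ℝ) ^ (2 * n * i - n + t) * Real.sqrt (((p : ℝ) ^ m * (b : ℝ) ^ n) ^ 2 + 4) -
      (b : ℝ) ^ t * (V : ℝ) / (p : ℝ) ^ r| ≤ 8 * (b : ℝ) ^ t / (b : ℝ) ^ (2 * n) := by
  have hb0 : (0 : ℝ) < b := by
    have : (2 : ℝ) ≤ b := by exact_mod_cast hb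
    linarith
  have hp0 : (0 : ℝ) < p := by
    have : (3 : ℝ) ≤ p := by exact_mod_cast hp
    linarith
  have hp1 : (1 : ℝ) ≤ p := by
    have : (3 : ℝ) ≤ p := by exact_mod_cast hp
    linarith
  have e1 : (b : ℝ) ^ (2 * n * i - n + t) * (b : ℝ) ^ n = (b : ℝ) ^ t * ((b : ℝ) ^ (2 * n)) ^ i := by
    rw [← pow_mul, ← pow_add, ← pow_add]
    congr 1
    have : n ≤ 2 * n * i := by nlinarith
    omega
  have e2 : (V : ℝ) / (p : ℝ) ^ r = (Mi : ℝ) * (p : ℝ) ^ m / (p : ℝ) ^ (2 * m * i) := by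
    rw [div_eq_div_iff (by positivity) (by positivity)]
    exact hV.symm
  have e3 : ((p : ℝ) ^ (2 * m) * (b : ℝ) ^ (2 * n)) ^ i =
      (p : ℝ) ^ (2 * m * i) * ((b : ℝ) ^ (2 * n)) ^ i := by
    rw [mul_pow, ← pow_mul (p : ℝ) (2 * m) i]
  have e4 : (b : ℝ) ^ (2 * n * i - n + t) * Real.sqrt (((p : ℝ) ^ m * (b : ℝ) ^ n) ^ 2 + 4) -
      (b : ℝ) ^ t * (V : ℝ) / (p : ℝ) ^ r = (b : ℝ) ^ t * (p : ℝ) ^ m / (p : ℝ) ^ (2 * m * i) *
        (S * ((p : ℝ) ^ (2 * m) * (b : ℝ) ^ (2 * n)) ^ i - (Mi : ℝ)) := by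
    rw [hS, e3, mul_div_assoc, e2]
    have h1 : (b : ℝ) ^ (2 * n * i - n + t) * ((p : ℝ) ^ m * (b : ℝ) ^ n * S) =
        (p : ℝ) ^ m * S * ((b : ℝ) ^ t * ((b : ℝ) ^ (2 * n)) ^ i) := by
      rw [← e1]
      ring
    rw [h1]
    have h2 : (p : ℝ) ^ (2 * m * i) ≠ 0 := by positivity
    field_simp
  rw [e4, abs_mul, abs_of_nonneg (by positivity)]
  have h4 : (4 : ℝ) ≤ (p : ℝ) ^ (2 * m) := by
    have h5 : (3 : ℝ) ≤ p := by exact_mod_cast hp
    calc (4 : ℝ) ≤ 3 ^ 2 := by norm_num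
      _ ≤ (p : ℝ) ^ 2 := pow_le_pow_left₀ (by norm_num) h5 2
      _ ≤ (p : ℝ) ^ (2 * m) := pow_le_pow_right₀ hp1 (by omega)
  have h6 : (p : ℝ) ^ m * 4 ^ i ≤ (p : ℝ) ^ (2 * m * i) * (p : ℝ) ^ (2 * m) := by
    rw [mul_comm]
    refine mul_le_mul ?_ (pow_le_pow_right₀ hp1 (by omega)) (by positivity) (by positivity)
    rw [pow_mul]
    exact pow_le_pow_left₀ (by norm_num) h4 i
  calc (b : ℝ) ^ t * (p : ℝ) ^ m / (p : ℝ) ^ (2 * m * i) *
        |S * ((p : ℝ) ^ (2 * m) * (b : ℝ) ^ (2 * n)) ^ i - (Mi : ℝ)|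
      ≤ (b : ℝ) ^ t * (p : ℝ) ^ m / (p : ℝ) ^ (2 * m * i) *
        (2 * (2 : ℝ) ^ (2 * (i + 1)) / ((p : ℝ) ^ (2 * m) * (b : ℝ) ^ (2 * n))) :=
        mul_le_mul_of_nonneg_left hT (by positivity)
    _ = (8 * (b : ℝ) ^ t / (b : ℝ) ^ (2 * n)) *
        (((p : ℝ) ^ m * 4 ^ i) / ((p : ℝ) ^ (2 * m * i) * (p : ℝ) ^ (2 * m))) := by
        have h7 : (2 : ℝ) ^ (2 * (i + 1)) = 4 * 4 ^ i := by
          rw [pow_mul, pow_succ]
          norm_num
          ring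
        rw [h7]
        field_simp
        ring
    _ ≤ (8 * (b : ℝ) ^ t / (b : ℝ) ^ (2 * n)) * 1 := by
        refine mul_le_mul_of_nonneg_left ?_ (by positivity)
        exact (div_le_one (by positivity)).2 h6
    _ = _ := mul_one _

theorem asym (n m p I : ℕ) (hn : 1 ≤ n) (hm : 1 ≤ m) (hlp : 1 ≤ Real.log p) (hp : 3 ≤ p)
    (hI : 1 ≤ I) (hI1 : (I : ℝ) ≤ Real.log n / (4 * m * Real.log p)) :
    ((I : ℝ) + 1) * ((2 * m : ℕ) * ((I : ℝ) + 1) + (p : ℝ) ^ (2 * m * I)) ≤ 3 * n := by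
  have hn1 : (1 : ℝ) ≤ n := by exact_mod_cast hn
  have hm1 : (1 : ℝ) ≤ m := by exact_mod_cast hm
  have hI0 : (1 : ℝ) ≤ I := by exact_mod_cast hI
  have hp0 : (0 : ℝ) < p := by
    have : (3 : ℝ) ≤ p := by exact_mod_cast hp
    linarith
  have hs : Real.sqrt n * Real.sqrt n = n := Real.mul_self_sqrt (by linarith)
  have hs1 : 1 ≤ Real.sqrt n := by
    rw [Real.one_le_sqrt]
    exact hn1
  have hl0 : 0 ≤ Real.log n := Real.log_natCast_nonneg n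
  have hl : Real.log n ≤ 2 * Real.sqrt n - 2 := by
    have h1 : Real.log n = 2 * Real.log (Real.sqrt n) := by
      rw [Real.log_sqrt (by linarith)]
      ring
    have h2 := Real.log_le_sub_one_of_pos (show 0 < Real.sqrt n by linarith)
    linarith
  have hd : (0 : ℝ) < 4 * m * Real.log p := by positivity
  have hI2 : (I : ℝ) * (4 * m * Real.log p) ≤ Real.log n := (le_div_iff₀ hd).1 hI1
  have hI3 : 4 * ((m : ℝ) * I) ≤ Real.log n := by
    refine le_trans ?_ hI2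
    have : 0 ≤ (I : ℝ) * m := by positivity
    nlinarith
  have hI4 : 4 * (I : ℝ) ≤ Real.log n := by
    refine le_trans ?_ hI3
    nlinarith
  have hpow : (p : ℝ) ^ (2 * m * I) ≤ Real.sqrt n := by
    rw [← Real.exp_log (show 0 < Real.sqrt n by linarith),
      ← Real.exp_log (show (0 : ℝ) < (p : ℝ) ^ (2 * m * I) by positivity), Real.exp_le_exp,
      Real.log_pow, Real.log_sqrt (by linarith)]
    push_cast
    nlinarith
  have h1 : ((I : ℝ) + 1) * (p : ℝ) ^ (2 * m * I) ≤ n := by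
    calc ((I : ℝ) + 1) * (p : ℝ) ^ (2 * m * I) ≤ Real.sqrt n * Real.sqrt n := by
          refine mul_le_mul ?_ hpow (by positivity) (by linarith)
          linarith
      _ = n := hs
  have h2 : ((I : ℝ) + 1) * ((2 * m : ℕ) * ((I : ℝ) + 1)) ≤ 2 * n := by
    push_cast
    have h3 : ((I : ℝ) + 1) * ((I : ℝ) + 1) ≤ (2 * I) * (2 * I) := by nlinarith
    calc ((I : ℝ) + 1) * (2 * m * ((I : ℝ) + 1)) = 2 * m * (((I : ℝ) + 1) * ((I : ℝ) + 1)) := by ring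
      _ ≤ 2 * m * ((2 * I) * (2 * I)) := by gcongr
      _ = (4 * (m * I)) * (4 * I) / 2 := by ring
      _ ≤ Real.log n * Real.log n / 2 := by gcongr
      _ ≤ (2 * Real.sqrt n) * (2 * Real.sqrt n) / 2 := by
          have : Real.log n ≤ 2 * Real.sqrt n := by linarith
          gcongr
      _ = 2 * n := by linear_combination 2 * hs
  rw [mul_add]
  linarith

end P_FB

theorem t_FB (hr : S_ROOT) (ht : S_TAIL) (hv : S_VALB) (hb : S_BK2) : S_FB := by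
  intro b p hb2 hp hodd hpb
  obtain ⟨a, hcoef, hsum⟩ := hr 2 (by norm_num)
  obtain ⟨C₂, hC₂, hbk⟩ := hb b p hb2 hp hodd hpb
  have hp3 : 3 ≤ p := by
    have h1 := hp.two_le
    have h2 : p ≠ 2 := by
      rintro rfl
      exact absurd hodd (by decide)
    omega
  have hp3R : (3 : ℝ) ≤ p := by exact_mod_cast hp3
  have hb2R : (2 : ℝ) ≤ b := by exact_mod_cast hb2
  have hlp : 1 ≤ Real.log p := by
    rw [Real.le_log_iff_exp_le (by linarith)]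
    have := Real.exp_one_lt_d9
    linarith
  refine ⟨1 / (8 * Real.log p), 5 * C₂ + 1, by positivity, by positivity, 1,
    fun n hn m hm hlog y hy0 hy1 N hN => ?_⟩
  have hn1 : (1 : ℝ) ≤ n := by exact_mod_cast hn
  have hm1 : (1 : ℝ) ≤ m := by exact_mod_cast hm
  have hl0 : 0 ≤ Real.log n := Real.log_natCast_nonneg n
  obtain ⟨X, hX⟩ : ∃ X : ℝ, X = Real.log n / (4 * m * Real.log p) := ⟨_, rfl⟩
  have hX0 : 0 ≤ X := by
    rw [hX]
    positivity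
  obtain ⟨I, hI⟩ : ∃ I : ℕ, I = ⌊X⌋₊ := ⟨_, rfl⟩
  have hI1 : (I : ℝ) ≤ X := by
    rw [hI]
    exact Nat.floor_le hX0
  have hI2 : X < (I : ℝ) + 1 := by
    rw [hI]
    exact Nat.lt_floor_add_one X
  have hNX : (N : ℝ) ≤ n * X / 2 := by
    refine hN.trans (le_of_eq ?_)
    rw [hX]
    have : Real.log p ≠ 0 := by linarith
    field_simp
    ring
  rcases Nat.eq_zero_or_pos I with hI0 | hI0
  · refine (Pool.Agent.H609.XP.Er_le _ hy0 hy1 0 N).trans ?_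
    rw [hI0] at hI2
    have h1 : (n : ℝ) * X ≤ n * 1 := by
      refine mul_le_mul_of_nonneg_left ?_ (by linarith)
      have : ((0 : ℕ) : ℝ) = 0 := Nat.cast_zero
      linarith
    have h2 : 0 ≤ 5 * C₂ * n := by positivity
    linarith
  · have hNle : N + n ≤ 2 * n * (I + 1) := by
      have h1 : (N : ℝ) + n ≤ 2 * n * (I + 1) := by
        have h2 : (n : ℝ) * X ≤ n * (I + 1) := mul_le_mul_of_nonneg_left hI2.le (by linarith)
        have h3 : 0 ≤ (n : ℝ) * I := by positivity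
        nlinarith
      exact_mod_cast h1
    -- the sum of the series
    obtain ⟨Q, hQ⟩ : ∃ Q : ℤ, Q = (p : ℤ) ^ (2 * m) * (b : ℤ) ^ (2 * n) := ⟨_, rfl⟩
    have hQR : ((Q : ℤ) : ℝ) = (p : ℝ) ^ (2 * m) * (b : ℝ) ^ (2 * n) := by
      rw [hQ]
      push_cast
      ring
    have hQ16R : (16 : ℝ) ≤ (Q : ℝ) := by
      rw [hQR]
      calc (16 : ℝ) ≤ 3 ^ 2 * 2 ^ 2 := by norm_num
        _ ≤ (p : ℝ) ^ 2 * (b : ℝ) ^ 2 := by gcongr
        _ ≤ (p : ℝ) ^ (2 * m) * (b : ℝ) ^ (2 * n) := by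
            refine mul_le_mul (pow_le_pow_right₀ (by linarith) (by omega))
              (pow_le_pow_right₀ (by linarith) (by omega)) (by positivity) (by positivity)
    have hQ16 : 4 * ((2 : ℕ) : ℤ) ^ 2 ≤ Q := by
      have : (16 : ℤ) ≤ Q := by exact_mod_cast hQ16R
      push_cast
      linarith
    have hQ0 : (0 : ℝ) < (Q : ℝ) := by linarith
    have hs := hsum ((Q : ℝ)⁻¹) (by positivity) (by
      rw [← div_eq_mul_inv, div_le_one hQ0]
      push_cast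
      linarith)
    have htail := ht 2 a (by norm_num) hcoef Q hQ16 _ hs
    obtain ⟨S, hS⟩ : ∃ S : ℝ, S = (1 + ((2 : ℕ) : ℝ) ^ 2 * (Q : ℝ)⁻¹) ^ (1 / ((2 : ℕ) : ℝ)) :=
      ⟨_, rfl⟩
    rw [← hS] at htail
    have hSs : Real.sqrt (((p : ℝ) ^ m * (b : ℝ) ^ n) ^ 2 + 4) =
        (p : ℝ) ^ m * (b : ℝ) ^ n * S := by
      have h1 : ((p : ℝ) ^ m * (b : ℝ) ^ n) ^ 2 = (Q : ℝ) := by
        rw [hQR, mul_pow, ← pow_mul, ← pow_mul, mul_comm m 2, mul_comm n 2]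
      have h2 : ((p : ℝ) ^ m * (b : ℝ) ^ n) ^ 2 + 4 =
          ((p : ℝ) ^ m * (b : ℝ) ^ n) ^ 2 * (1 + ((2 : ℕ) : ℝ) ^ 2 * (Q : ℝ)⁻¹) := by
        rw [h1]
        push_cast
        field_simp
        ring
      rw [h2, Real.sqrt_mul (sq_nonneg _), Real.sqrt_sq (by positivity), hS, Real.sqrt_eq_rpow]
      push_cast
      rfl
    have hval : ∀ i, ∃ (V : ℤ) (r : ℕ), 1 ≤ i → i ≤ I → (¬ (p : ℤ) ∣ V ∧ i ≤ r + 1 ∧
        r ≤ 2 * m * i ∧ M a Q i * (p : ℤ) ^ m * (p : ℤ) ^ r = V * (p : ℤ) ^ (2 * m * i)) := by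
      intro i
      by_cases h : 1 ≤ i ∧ i ≤ I
      · have h2 : 2 * i < p ^ (2 * m) := by
          have h3 : ((2 * i : ℕ) : ℝ) < (p : ℝ) ^ (2 * m) := by
            refine lt_of_lt_of_le ?_ hlog
            have h4 : (i : ℝ) ≤ I := by exact_mod_cast h.2
            have h5 : (1 : ℝ) ≤ I := by exact_mod_cast hI0
            have h6 : (I : ℝ) * (4 * m * Real.log p) ≤ Real.log n := by
              rw [← le_div_iff₀ (by positivity), ← hX]
              exact hI1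
            have h7 : (1 : ℝ) ≤ m * Real.log p := by nlinarith
            push_cast
            nlinarith
          exact_mod_cast h3
        obtain ⟨V, r, h3, h4, h5, h6⟩ := hv p a hp hodd hcoef m ((b : ℤ) ^ (2 * n)) i hm h.1 h2
        rw [← hQ] at h6
        exact ⟨V, r, fun _ _ => ⟨h3, h4, h5, h6⟩⟩
      · exact ⟨0, 0, fun h1 h2 => absurd ⟨h1, h2⟩ h⟩
    choose V r hVr using hval
    have hfin := hbk (2 * m) I (2 * n) n
      (fun j => (b : ℝ) ^ j * Real.sqrt (((p : ℝ) ^ m * (b : ℝ) ^ n) ^ 2 + 4)) V r (by omega)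
      (by omega) (by omega) (fun i hi1 hi2 => by
        obtain ⟨h1, h2, h3, h4⟩ := hVr i hi1 hi2
        refine ⟨h1, h2, h3, fun t _ => ?_⟩
        have h5 := htail i
        rw [hQR] at h5
        refine P_FB.point b p m n i t hb2 hp3 hm hi1 S (M a Q i) (V i) (r i) hSs ?_ ?_
        · exact_mod_cast h5
        · exact_mod_cast h4) y hy0 hy1 N hNle
    refine hfin.trans ?_
    have has := P_FB.asym n m p I hn hm hlp hp3 hI0 (by rw [← hX]; exact hI1)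
    have h2n : (((2 * n : ℕ) : ℕ) : ℝ) = 2 * n := by push_cast; ring
    rw [h2n]
    calc C₂ * (2 * n + ((I : ℝ) + 1) * (((2 * m : ℕ) : ℝ) * ((I : ℝ) + 1) + (p : ℝ) ^ (2 * m * I)))
        ≤ C₂ * (2 * n + 3 * n) := by gcongr
      _ ≤ (5 * C₂ + 1) * n := by nlinarith

end Pool.Agent.H609.RI
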