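import Pool.Agent.H609.RI.Stm2

/-!
FD: the roots of `(b ^ n) ^ d + 1`, a prime factor of `d` does not divide `b` (subtask of helper609, proved by
helper349; adaptation of `P_FA.lean`).
-/

set_option autoImplicit false
set_option maxHeartbeats 4000000

namespace Pool.Agent.H609.RI

open Finset
open Pool.Agent.H609.XP (Er)

namespace P_FD

lemma root_eq (b d n : ℕ) (hb : 2 ≤ b) (hd : 1 ≤ d) :
    (((b:ℝ)^n)^d + 1)^(1/(d:ℝ)) =
      (b:ℝ)^n * (1 + (d:ℝ)^2 * (((d:ℝ)^2 * (b:ℝ)^(d*n))⁻¹))^(1/(d:ℝ)) := by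
  have hb0 : (0:ℝ) < b := by exact_mod_cast (by omega : 0 < b)
  have hp0 : (0:ℝ) < d := by exact_mod_cast (by omega : 0 < d)
  have e1 : ((b:ℝ)^n)^d + 1 =
      ((b:ℝ)^n)^d * (1 + (d:ℝ)^2 * (((d:ℝ)^2 * (b:ℝ)^(d*n))⁻¹)) := by
    rw [← pow_mul, mul_comm n d]
    have h1 : (b:ℝ)^(d*n) ≠ 0 := by positivity
    field_simp
  rw [e1, Real.mul_rpow (by positivity) (by positivity)]
  congr 1
  rw [one_div, Real.pow_rpow_inv_natCast (by positivity) (by omega)]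

lemma blk {β D D₁ P D' f S m v : ℝ} {n d i t r j e k : ℕ} (hβ : 0 < β) (hD₁ : 0 < D₁) (hP : 0 < P)
    (hD' : 0 < D') (hD : D = D₁ * (P^k * D')) (hf : β^e = D₁ * f)
    (hS : |S * (D^2 * β^(d*n))^i - m| ≤ 2 * D^(2*(i+1)) / (D^2 * β^(d*n)))
    (hm : m * P^r = v * P^(2*k*i)) (hj : j + n = d*n*i + t) (ht : 2*e*i ≤ t) :
    |β^j * (β^n * S) - β^(t - 2*e*i) * (v * f^(2*i)) / (P^r * D'^(2*i))| ≤
      8 * β^t / β^(d*n) := by
  have hD0 : 0 < D := by rw [hD]; positivity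
  have hPi : (0:ℝ) < D^(2*i) := by positivity
  have hPr : (0:ℝ) < P^r * D'^(2*i) := by positivity
  have hB : (0:ℝ) < β^(d*n) := by positivity
  have e1 : β^j * (β^n * S) = β^t / D^(2*i) * (S * (D^2 * β^(d*n))^i) := by
    rw [← mul_assoc, ← pow_add, hj, pow_add, pow_mul β (d*n) i, mul_pow, ← pow_mul D 2 i]
    field_simp
  have e3 : β^t = β^(t - 2*e*i) * (D₁^(2*i) * f^(2*i)) := by
    rw [← mul_pow, ← hf, ← pow_mul, ← pow_add]
    congr 1
    have : e * (2*i) = 2*e*i := by ring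
    omega
  have e4 : D^(2*i) = D₁^(2*i) * (P^(2*k*i) * D'^(2*i)) := by
    rw [hD, mul_pow, mul_pow, ← pow_mul]
    congr 3
    ring
  have e2 : β^(t - 2*e*i) * (v * f^(2*i)) / (P^r * D'^(2*i)) = β^t / D^(2*i) * m := by
    rw [div_mul_eq_mul_div, div_eq_div_iff hPr.ne' hPi.ne', e3, e4]
    calc β^(t - 2*e*i) * (v * f^(2*i)) * (D₁^(2*i) * (P^(2*k*i) * D'^(2*i)))
        = β^(t - 2*e*i) * f^(2*i) * D₁^(2*i) * D'^(2*i) * (v * P^(2*k*i)) := by ring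
      _ = β^(t - 2*e*i) * f^(2*i) * D₁^(2*i) * D'^(2*i) * (m * P^r) := by rw [hm]
      _ = _ := by ring
  rw [e1, e2, ← mul_sub, abs_mul, abs_of_pos (by positivity)]
  calc β^t / D^(2*i) * |S * (D^2 * β^(d*n))^i - m|
      ≤ β^t / D^(2*i) * (2 * D^(2*(i+1)) / (D^2 * β^(d*n))) :=
        mul_le_mul_of_nonneg_left hS (by positivity)
    _ = 2 * β^t / β^(d*n) := by
        rw [show D^(2*(i+1)) = D^(2*i) * D^2 by rw [← pow_add]; ring_nf]
        field_simp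
    _ ≤ 8 * β^t / β^(d*n) := by
        apply div_le_div_of_nonneg_right _ hB.le
        have : 0 < β^t := by positivity
        linarith

/-- the choice of the number of blocks -/
lemma num {d : ℕ} (hd : 2 ≤ d) {n : ℕ} (hn : 1 ≤ n) (K : ℝ) (hK : 0 ≤ K) :
    ∃ I : ℕ, Real.log n / (4 * Real.log d) < (I:ℝ) + 1 ∧
      ((I:ℝ) + 1) * (K * ((I:ℝ) + 1) + ((d:ℝ)^2)^I) ≤ (4 * K + 2) * n := by
  have hn1 : (1:ℝ) ≤ n := by exact_mod_cast hn
  have hn0 : (0:ℝ) < n := by linarith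
  have hp3 : (2:ℝ) ≤ d := by exact_mod_cast hd
  have hlp : 1 / 2 ≤ Real.log d := by
    have h1 := Real.log_two_gt_d9
    have h2 : Real.log 2 ≤ Real.log d := Real.log_le_log (by norm_num) hp3
    linarith
  have hln : 0 ≤ Real.log n := Real.log_nonneg hn1
  have hq : 0 ≤ Real.log n / (4 * Real.log d) := by positivity
  refine ⟨⌊Real.log n / (4 * Real.log d)⌋₊, Nat.lt_floor_add_one _, ?_⟩
  obtain ⟨I, hI⟩ : ∃ I : ℕ, I = ⌊Real.log n / (4 * Real.log d)⌋₊ := ⟨_, rfl⟩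
  have hIle : (I:ℝ) ≤ Real.log n / (4 * Real.log d) := by rw [hI]; exact Nat.floor_le hq
  rw [← hI]
  obtain ⟨s, hs⟩ : ∃ s : ℝ, s = Real.sqrt n := ⟨_, rfl⟩
  have hs0 : 0 < s := by rw [hs]; exact Real.sqrt_pos.2 hn0
  have hss : s * s = n := by rw [hs]; exact Real.mul_self_sqrt hn0.le
  have hs1 : 1 ≤ s := by rw [hs]; exact Real.one_le_sqrt.2 hn1
  have hlogs : Real.log n = 2 * Real.log s := by
    rw [← hss, Real.log_mul hs0.ne' hs0.ne']
    ring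
  have hlog2 : Real.log n ≤ 2 * s - 2 := by
    have := Real.log_le_sub_one_of_pos hs0
    linarith
  have hI4 : 4 * (I:ℝ) * Real.log d ≤ Real.log n := by
    rw [le_div_iff₀ (by positivity)] at hIle
    linarith
  have hI1 : (I:ℝ) ≤ Real.log n := by
    have : (0:ℝ) ≤ I := Nat.cast_nonneg I
    nlinarith
  have hI2 : (I:ℝ) + 1 ≤ 2 * s := by linarith
  have hpow : ((d:ℝ)^2)^I ≤ s := by
    have h1 : ((d:ℝ)^2)^I = Real.exp (2 * I * Real.log d) := by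
      rw [← pow_mul, ← Real.rpow_natCast, Real.rpow_def_of_pos (by linarith)]
      congr 1
      push_cast
      ring
    have h2 : s = Real.exp (Real.log s) := (Real.exp_log hs0).symm
    rw [h1, h2]
    apply Real.exp_le_exp.2
    linarith
  have h0 : (0:ℝ) ≤ (I:ℝ) + 1 := by positivity
  have h3 : K * ((I:ℝ) + 1) ≤ K * (2 * s) := mul_le_mul_of_nonneg_left hI2 hK
  calc ((I:ℝ) + 1) * (K * ((I:ℝ) + 1) + ((d:ℝ)^2)^I) ≤ (2 * s) * (K * (2 * s) + s) := by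
        apply mul_le_mul hI2 (by linarith) (by positivity) (by positivity)
    _ = (4 * K + 2) * n := by rw [← hss]; ring

end P_FD

open P_FD in
/-- FD from the statements ROOT, TAIL, VALD, BKD2, SPL. -/
theorem t_FD (hr : S_ROOT) (ht : S_TAIL) (hv : S_VALD) (hb : S_BKD2) (hs : S_SPL) : S_FD := by
  intro b d p hb2 hd2 hp hpd hpb
  have hd1 : 1 ≤ d := by omega
  have hd0 : d ≠ 0 := by omega
  -- the exact power of `p` in `d`
  obtain ⟨k, e0, hk0, hk1⟩ : ∃ k e0 : ℕ, ¬ p ∣ e0 ∧ d = p^k * e0 :=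
    Nat.exists_eq_pow_mul_and_not_dvd hd0 p hp.ne_one
  have hkpos : 1 ≤ k := by
    rcases Nat.eq_zero_or_pos k with h | h
    · exfalso
      rw [h, pow_zero, one_mul] at hk1
      exact hk0 (hk1 ▸ hpd)
    · exact h
  have hpk : p^k ∣ d := ⟨e0, hk1⟩
  have hpk1 : ¬ p^(k+1) ∣ d := by
    intro h
    apply hk0
    rw [hk1, pow_succ] at h
    exact Nat.dvd_of_mul_dvd_mul_left (pow_pos hp.pos k) h
  obtain ⟨d₁, d₂, e, hd12, hcop, hd₁e⟩ := hs b d (by omega) hd1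
  have hpbe : ¬ p ∣ b^e := fun h => hpb (hp.dvd_of_dvd_pow h)
  have hpd₁ : ¬ p ∣ d₁ := fun h => hpbe (h.trans hd₁e)
  have hcop1 : Nat.Coprime (p^k) d₁ := Nat.Coprime.pow_left k ((Nat.Prime.coprime_iff_not_dvd hp).2 hpd₁)
  have hpk2 : p^k ∣ d₂ := by
    have h : p^k ∣ d₁ * d₂ := hd12 ▸ hpk
    exact hcop1.dvd_of_dvd_mul_left h
  obtain ⟨d', hd'⟩ := hpk2
  have hd₁0 : d₁ ≠ 0 := by
    rintro rfl
    simp at hd12
    omega
  have hd₂0 : d₂ ≠ 0 := by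
    rintro rfl
    simp at hd12
    omega
  have hd'0 : d' ≠ 0 := by
    rintro rfl
    simp at hd'
    omega
  have hpd' : ¬ p ∣ d' := by
    intro h
    apply hpk1
    rw [hd12, hd', pow_succ]
    exact Dvd.dvd.mul_left (Nat.mul_dvd_mul_left _ h) _
  have hpd₂ : p ∣ d₂ := by
    rw [hd']
    exact Dvd.dvd.mul_right (dvd_pow_self p (by omega)) _
  obtain ⟨f, hf⟩ := hd₁e
  have hpf : ¬ p ∣ f := fun h => hpbe (hf ▸ Dvd.dvd.mul_left h _)
  have hp0r : (0:ℝ) < p := by exact_mod_cast hp.pos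
  have hd0r : (0:ℝ) < d := by exact_mod_cast (by omega : 0 < d)
  have hb0r : (0:ℝ) < b := by exact_mod_cast (by omega : 0 < b)
  have hd₁0r : (0:ℝ) < d₁ := by exact_mod_cast Nat.pos_of_ne_zero hd₁0
  have hd'0r : (0:ℝ) < d' := by exact_mod_cast Nat.pos_of_ne_zero hd'0
  have hdr : (d:ℝ) = d₁ * ((p:ℝ)^k * d') := by
    rw [hd12, hd']
    push_cast
    ring
  have hfr : (b:ℝ)^e = d₁ * f := by exact_mod_cast hf
  obtain ⟨C, hC, hCb⟩ := hb b d₂ p hb2 (Nat.pos_of_ne_zero hd₂0) hcop hp hpd₂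
  obtain ⟨a, ha, haS⟩ := hr d hd1
  have hlp : 0 < Real.log d := Real.log_pos (by exact_mod_cast (by omega : 1 < d))
  refine ⟨1 / (4 * Real.log d), C * (d + (4 * (2 * e + (d:ℝ)^2) + 2)), by positivity, by positivity,
    1, ?_⟩
  intro n hn y hy0 hy1 N hN
  have hn0r : (0:ℝ) < n := by exact_mod_cast hn
  obtain ⟨I, hI1, hI2⟩ := num hd2 hn (2 * e + (d:ℝ)^2) (by positivity)
  -- the integer `Q`
  have hQ4 : 4 ≤ (b:ℤ)^(d*n) := by
    have h1 : (2:ℤ)^2 ≤ (b:ℤ)^(d*n) := by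
      calc (2:ℤ)^2 ≤ (2:ℤ)^(d*n) := pow_le_pow_right₀ (by norm_num) (by nlinarith)
        _ ≤ (b:ℤ)^(d*n) := pow_le_pow_left₀ (by norm_num) (by exact_mod_cast hb2) _
    linarith
  have hQ : 4 * (d:ℤ)^2 ≤ (d:ℤ)^2 * (b:ℤ)^(d*n) := by
    have : 0 ≤ (d:ℤ)^2 := by positivity
    nlinarith
  have hQr : 4 * (d:ℝ)^2 ≤ (d:ℝ)^2 * (b:ℝ)^(d*n) := by exact_mod_cast hQ
  have hQc : (((d:ℤ)^2 * (b:ℤ)^(d*n) : ℤ) : ℝ) = (d:ℝ)^2 * (b:ℝ)^(d*n) := by push_cast; ring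
  have hQpos : (0:ℝ) < (d:ℝ)^2 * (b:ℝ)^(d*n) := by positivity
  obtain ⟨S, hS⟩ : ∃ S : ℝ,
    S = (1 + (d:ℝ)^2 * (((d:ℝ)^2 * (b:ℝ)^(d*n))⁻¹))^(1/(d:ℝ)) := ⟨_, rfl⟩
  have hsum := haS (((d:ℝ)^2 * (b:ℝ)^(d*n))⁻¹) (by positivity) (by
    rw [← div_eq_mul_inv, div_le_one hQpos]
    exact hQr)
  rw [← hS, ← hQc] at hsum
  have htail := ht d a hd1 ha _ hQ S hsum
  rw [hQc] at htail
  have hva := fun i => hv p d k a hp hd1 hkpos hpk hpk1 ha ((b:ℤ)^(d*n)) i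
  choose V r hV1 hV2 hV3 hV4 using hva
  have hmain := hCb (2*e) (d^2) I (d*n) n
    (fun j => (b : ℝ) ^ j * ((((b : ℝ) ^ n) ^ d + 1) ^ (1 / (d : ℝ))))
    (fun i => V i * (f:ℤ)^(2*i)) r (fun i => d'^(2*i)) (Nat.one_le_pow _ _ (by omega))
    (by positivity) (by nlinarith) (by
      intro i hi1 hi2
      refine ⟨Nat.one_le_pow _ _ (Nat.pos_of_ne_zero hd'0), ⟨2*i, ?_⟩, ?_, ?_,
        (hV2 i).trans (Nat.le_succ _), ?_, fun t ht1 ht2 => ?_⟩
      · exact pow_dvd_pow_of_dvd ⟨p^k, by rw [hd', mul_comm]⟩ _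
      · exact fun h => hpd' (hp.dvd_of_dvd_pow h)
      · intro h
        have hpi : Prime (p:ℤ) := Nat.prime_iff_prime_int.1 hp
        rcases hpi.dvd_or_dvd h with h | h
        · exact hV1 i h
        · have h1 := hpi.dvd_of_dvd_pow h
          exact hpf (by exact_mod_cast h1)
      · calc p^(r i) * d'^(2*i) ≤ p^(2*k*i) * d'^(2*i) :=
              Nat.mul_le_mul_right _ (Nat.pow_le_pow_right hp.pos (hV3 i))
          _ = (p^k * d')^(2*i) := by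
              rw [mul_pow, ← pow_mul]
              congr 2
              ring
          _ = d₂^(2*i) := by rw [hd']
          _ ≤ d^(2*i) := by
              apply Nat.pow_le_pow_left
              rw [hd12]
              exact Nat.le_mul_of_pos_left _ (Nat.pos_of_ne_zero hd₁0)
          _ = (d^2)^i := by rw [pow_mul]
      · have h1 := root_eq b d n hb2 hd1
        rw [← hS] at h1
        show |(b:ℝ)^(d*n*i - n + t) * ((((b : ℝ) ^ n) ^ d + 1) ^ (1 / (d : ℝ))) -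
          (b:ℝ)^(t - 2*e*i) * ((V i * (f:ℤ)^(2*i) : ℤ) : ℝ) /
            ((p:ℝ)^(r i) * ((d'^(2*i) : ℕ) : ℝ))| ≤ _
        rw [h1]
        have h4 : ((M a ((d:ℤ)^2 * (b:ℤ)^(d*n)) i : ℤ) : ℝ) * (p:ℝ)^(r i) =
            ((V i : ℤ) : ℝ) * (p:ℝ)^(2*k*i) := by
          exact_mod_cast hV4 i
        have h5 : d*n*i - n + t + n = d*n*i + t := by
          have : n ≤ d*n*i := by
            calc n = 1*n*1 := by ring
              _ ≤ d*n*i := Nat.mul_le_mul (Nat.mul_le_mul hd1 le_rfl) hi1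
          omega
        have h6 : ((V i * (f:ℤ)^(2*i) : ℤ) : ℝ) = ((V i : ℤ) : ℝ) * (f:ℝ)^(2*i) := by
          push_cast
          ring
        have h7 : ((d'^(2*i) : ℕ) : ℝ) = (d':ℝ)^(2*i) := by push_cast; ring
        rw [h6, h7]
        exact blk hb0r hd₁0r hp0r hd'0r hdr hfr (htail i) h4 h5 ht1) y hy0 hy1 N (by
      have h1 : (N:ℝ) + n ≤ d * n * (I + 1) := by
        have h2 : (N:ℝ) ≤ n * ((I:ℝ) + 1) := by
          calc (N:ℝ) ≤ 1 / (4 * Real.log d) * (n * Real.log n) := hN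
            _ = n * (Real.log n / (4 * Real.log d)) := by ring
            _ ≤ n * ((I:ℝ) + 1) := mul_le_mul_of_nonneg_left hI1.le hn0r.le
        have h3 : (n:ℝ) ≤ n * ((I:ℝ) + 1) := by
          have : (0:ℝ) ≤ I := Nat.cast_nonneg I
          nlinarith
        have h4 : (2:ℝ) ≤ d := by exact_mod_cast hd2
        have h5 : 2 * (n * ((I:ℝ) + 1)) ≤ d * (n * ((I:ℝ) + 1)) :=
          mul_le_mul_of_nonneg_right h4 (by positivity)
        calc (N:ℝ) + n ≤ 2 * (n * ((I:ℝ) + 1)) := by linarith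
          _ ≤ _ := by linarith
      exact_mod_cast h1)
  refine hmain.trans ?_
  push_cast
  rw [mul_assoc]
  apply mul_le_mul_of_nonneg_left _ hC.le
  have := hI2
  linarith

end Pool.Agent.H609.RI
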