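import Pool.Agent.H609.RI.Stm2

/-! The order of the base modulo `P * H`. -/

set_option autoImplicit false

namespace Pool.Agent.H609.RI

open Finset

namespace P_ORD2

theorem tot (P : ℕ) : ∀ H : ℕ, 1 ≤ H → (∀ q : ℕ, q.Prime → q ∣ H → q ∣ P) →
    (P * H).totient = H * P.totient := by
  intro H
  induction H using Nat.strong_induction_on with
  | _ H ih =>
    intro hH hq
    rcases Nat.eq_or_lt_of_le hH with h1 | h1
    · rw [← h1, mul_one, one_mul]
    · obtain ⟨q, hqp, hqH⟩ := Nat.exists_prime_and_dvd (n := H) (by omega)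
      obtain ⟨H', rfl⟩ := hqH
      have hH' : 1 ≤ H' := by
        rcases Nat.eq_zero_or_pos H' with h | h
        · rw [h, mul_zero] at hH
          omega
        · exact h
      have hlt : H' < q * H' := by
        have := hqp.two_le
        nlinarith
      have h2 := ih H' hlt hH' (fun r hr hrd => hq r hr (Dvd.dvd.mul_left hrd q))
      rw [show P * (q * H') = q * (P * H') by ring,
        Nat.totient_mul_of_prime_of_dvd hqp ((hq q hqp (dvd_mul_right _ _)).mul_right H'), h2]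
      ring

end P_ORD2

theorem t_ORD2 : S_ORD2 := by
  intro b P p hb hP hcop hp hpP
  have hφ : 0 < P.totient := Nat.totient_pos.2 (by omega)
  have hbφ : b ^ P.totient ≡ 1 [MOD P] := Nat.ModEq.pow_totient hcop
  obtain ⟨E, hE⟩ : ∃ E : ℕ, E = 2 * P.totient := ⟨_, rfl⟩
  have hE1 : 1 ≤ E := by omega
  have hbE : 1 < b ^ E := Nat.one_lt_pow (by omega) (by omega)
  have hEsq : b ^ E = (b ^ P.totient) ^ 2 := by rw [hE, ← pow_mul, mul_comm]
  have hpow : b ^ E ≡ 1 [MOD P] := by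
    rw [hEsq]
    simpa using hbφ.pow 2
  have hpE : p ∣ b ^ E - 1 := hpP.trans ((Nat.modEq_iff_dvd' hbE.le).1 hpow.symm)
  obtain ⟨a, w0, hw0, hab⟩ := Nat.exists_eq_pow_mul_and_not_dvd (n := b ^ E - 1) (by omega) p
    hp.ne_one
  have hZ : (b : ℤ) ^ E = 1 + (p : ℤ) ^ a * (w0 : ℤ) := by
    have h1 : b ^ E = 1 + p ^ a * w0 := by omega
    exact_mod_cast h1
  have ha : 1 ≤ a := by
    by_contra hlt
    have h0 : a = 0 := by omega
    rw [h0, pow_zero, one_mul] at hab
    exact hw0 (hab ▸ hpE)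
  have ha2 : p = 2 → 2 ≤ a := by
    intro hp2
    by_contra hlt
    have h1 : a = 1 := by omega
    have hbodd : b % 2 = 1 := by
      rcases Nat.mod_two_eq_zero_or_one b with h | h
      · exfalso
        have h2 : 2 ∣ b := Nat.dvd_of_mod_eq_zero h
        have h3 : 2 ∣ Nat.gcd b P := Nat.dvd_gcd h2 (hp2 ▸ hpP)
        rw [hcop] at h3
        omega
      · exact h
    obtain ⟨r, hr⟩ : ∃ r, b ^ P.totient = 2 * r + 1 := by
      have h2 : (b ^ P.totient) % 2 = 1 := by
        simp [Nat.pow_mod, hbodd]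
      exact ⟨b ^ P.totient / 2, by omega⟩
    rw [hEsq, hr, h1, hp2, pow_one] at hab
    have h4 : (2 * r + 1) ^ 2 - 1 = 2 * (2 * (r * r + r)) := by
      have : (2 * r + 1) ^ 2 = 2 * (2 * (r * r + r)) + 1 := by ring
      omega
    rw [h4] at hab
    have h5 : 2 * (r * r + r) = w0 := by omega
    apply hw0
    rw [hp2, ← h5]
    exact dvd_mul_right _ _
  refine ⟨E, a, hE1, ha, ha2, fun H k hH hHP hpH => ?_⟩
  have hgeom : ((b : ℤ) ^ E) ^ H - 1 = ((b : ℤ) ^ E - 1) * ∑ l ∈ range H, ((b : ℤ) ^ E) ^ l := by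
    rw [mul_comm]
    exact (geom_sum_mul _ _).symm
  have hpZ : Prime (p : ℤ) := Nat.prime_iff_prime_int.1 hp
  have hpdE : (p : ℤ) ∣ (b : ℤ) ^ E - 1 := by
    rw [hZ, add_sub_cancel_left]
    exact (dvd_pow_self (p : ℤ) (by omega)).mul_right _
  have hS : (p : ℤ) ∣ (∑ l ∈ range H, ((b : ℤ) ^ E) ^ l) - H := by
    have h1 : (∑ l ∈ range H, ((b : ℤ) ^ E) ^ l) - H =
        ∑ l ∈ range H, (((b : ℤ) ^ E) ^ l - 1) := by
      rw [sum_sub_distrib]
      simp
    rw [h1]
    refine dvd_sum fun l _ => hpdE.trans ?_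
    have h2 := sub_dvd_pow_sub_pow ((b : ℤ) ^ E) 1 l
    rwa [one_pow] at h2
  refine ⟨(w0 : ℤ) * ∑ l ∈ range H, ((b : ℤ) ^ E) ^ l, ?_, ?_, ?_⟩
  · rw [pow_mul]
    have h1 : (b : ℤ) ^ E - 1 = (p : ℤ) ^ a * (w0 : ℤ) := by rw [hZ]; ring
    rw [h1] at hgeom
    linear_combination hgeom
  · intro hdvd
    rcases hpZ.dvd_or_dvd hdvd with h | h
    · exact hw0 (by exact_mod_cast h)
    · apply hpH
      have h1 : (p : ℤ) ∣ (H : ℤ) := by
        have h2 := dvd_sub h hS
        rwa [sub_sub_cancel] at h2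
      exact_mod_cast h1
  · have hq : ∀ q : ℕ, q.Prime → q ∣ H → q ∣ P := fun q hq hqH =>
      hq.dvd_of_dvd_pow (hqH.trans hHP)
    have htot := P_ORD2.tot P H hH hq
    have hcopH : Nat.Coprime b (P * H) :=
      Nat.Coprime.mul_right hcop ((Nat.Coprime.pow_right k hcop).coprime_dvd_right hHP)
    have h1 : b ^ (P * H).totient ≡ 1 [MOD P * H] := Nat.ModEq.pow_totient hcopH
    have h2 : b ^ (E * H) ≡ 1 [MOD P * H] := by
      have h3 : b ^ (E * H) = (b ^ (P * H).totient) ^ 2 := by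
        rw [htot, hE, ← pow_mul]
        congr 1
        ring
      rw [h3]
      simpa using h1.pow 2
    have h4 : b ^ (E * H) ≡ 1 [MOD H] := h2.of_mul_left P
    have h5 := (Nat.modEq_iff_dvd.1 h4.symm)
    push_cast at h5
    exact h5

end Pool.Agent.H609.RI
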