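import Pool.Agent.H609.RI.Stm2

/-!
# RUN2: a run over a full period modulo `p ^ r * H`
-/

set_option autoImplicit false

namespace Pool.Agent.H609.RI

open Finset

namespace P_RUN2

/-- the exact power of `p` in `u ^ δ - 1` -/
lemma emul {p : ℕ} (hp : p.Prime) {a : ℕ} {u w : ℤ} (ha : 1 ≤ a) (ha2 : p = 2 → 2 ≤ a)
    (hu : u = 1 + (p : ℤ) ^ a * w) (hu1 : ¬ (p : ℤ) ∣ u) (δ : ℕ) :
    emultiplicity (p : ℤ) (u ^ δ - 1) = emultiplicity (p : ℤ) (u - 1) + emultiplicity p δ := by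
  rcases hp.eq_two_or_odd' with h2 | hp2
  · subst h2
    have h4 : (4 : ℤ) ∣ u - 1 := by
      rw [hu, add_sub_cancel_left]
      obtain ⟨b, rfl⟩ : ∃ b, a = b + 2 := ⟨a - 2, by have := ha2 rfl; omega⟩
      refine ⟨2 ^ b * w, ?_⟩
      push_cast
      ring
    have h5 := Int.two_pow_sub_pow' (x := u) (y := 1) δ h4 (by exact_mod_cast hu1)
    rw [one_pow] at h5
    rw [← Int.natCast_emultiplicity 2 δ]
    exact_mod_cast h5
  · have hd : (p : ℤ) ∣ u - 1 := by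
      rw [hu, add_sub_cancel_left]
      exact Dvd.dvd.mul_right (dvd_pow_self _ (by omega)) _
    have h2 := Int.emultiplicity_pow_sub_pow hp hp2 hd hu1 δ
    rwa [one_pow] at h2

/-- different exponents below the period give different residues -/
lemma pow_inj {p : ℕ} (hp : p.Prime) {a : ℕ} {u w : ℤ} (ha : 1 ≤ a) (ha2 : p = 2 → 2 ≤ a)
    (hu : u = 1 + (p : ℤ) ^ a * w) (hw : ¬ (p : ℤ) ∣ w) {r : ℕ} (hr : a ≤ r) {V : ℤ}
    (hV : ¬ (p : ℤ) ∣ V) {i j : ℕ} (hi : i < p ^ (r - a)) (hij : j < i)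
    (h : (p : ℤ) ^ r ∣ V * u ^ i - V * u ^ j) : False := by
  have hpZ : Prime (p : ℤ) := Nat.prime_iff_prime_int.1 hp
  have hu1 : ¬ (p : ℤ) ∣ u := by
    intro h1
    have h2 : (p : ℤ) ∣ (p : ℤ) ^ a * w := Dvd.dvd.mul_right (dvd_pow_self _ (by omega)) _
    have h3 : (p : ℤ) ∣ 1 := by
      have := dvd_sub h1 h2
      rwa [hu, add_sub_cancel_right] at this
    exact hpZ.not_isUnit (isUnit_of_dvd_one h3)
  obtain ⟨δ, rfl⟩ : ∃ δ, i = j + δ := ⟨i - j, by omega⟩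
  have hδ : δ ≠ 0 := by omega
  have h1 : (p : ℤ) ^ r ∣ u ^ δ - 1 := by
    have h2 : V * u ^ (j + δ) - V * u ^ j = (V * u ^ j) * (u ^ δ - 1) := by rw [pow_add]; ring
    rw [h2] at h
    have h3 : IsCoprime ((p : ℤ) ^ r) (V * u ^ j) := by
      apply IsCoprime.pow_left
      rw [Prime.coprime_iff_not_dvd hpZ]
      intro h4
      rcases hpZ.dvd_or_dvd h4 with h5 | h5
      · exact hV h5
      · exact hu1 (hpZ.dvd_of_dvd_pow h5)
    exact h3.dvd_of_dvd_mul_left h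
  have h2 := emul hp ha ha2 hu hu1 δ
  have h3 : emultiplicity (p : ℤ) (u - 1) = a := by
    rw [hu, add_sub_cancel_left]
    rw [emultiplicity_mul hpZ, emultiplicity_pow_self_of_prime hpZ,
      emultiplicity_eq_zero.2 hw, add_zero]
  rw [h3] at h2
  have h4 : (r : ℕ∞) ≤ emultiplicity (p : ℤ) (u ^ δ - 1) := le_emultiplicity_of_pow_dvd h1
  rw [h2] at h4
  have h5 : ((r - a : ℕ) : ℕ∞) ≤ emultiplicity p δ := by
    by_contra hcon
    rw [not_le] at hcon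
    have h6 : (a : ℕ∞) + emultiplicity p δ < (a : ℕ∞) + ((r - a : ℕ) : ℕ∞) := by
      apply (ENat.add_lt_add_iff_left (by simp)).2 hcon
    have h7 : (a : ℕ∞) + ((r - a : ℕ) : ℕ∞) = r := by
      norm_cast
      omega
    rw [h7] at h6
    exact absurd h4 (not_le.2 h6)
  have h6 : p ^ (r - a) ∣ δ := pow_dvd_of_le_emultiplicity h5
  have := Nat.le_of_dvd (by omega) h6
  omega

/-- **A run over a full period is equidistributed**, also after a small perturbation. -/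
theorem run {p : ℕ} (hp : p.Prime) {a : ℕ} {u w : ℤ} {H : ℕ} (ha : 1 ≤ a) (ha2 : p = 2 → 2 ≤ a)
    (hu : u = 1 + (p : ℤ) ^ a * w) (hw : ¬ (p : ℤ) ∣ w) (hH : 1 ≤ H) (hpH : ¬ p ∣ H)
    (hHu : (H : ℤ) ∣ u - 1) {r : ℕ} (hr : a ≤ r) {V : ℤ}
    (hV : ¬ (p : ℤ) ∣ V) (c : ℕ → ℝ) {R : ℝ} (hR : R = (p : ℝ) ^ r * H)
    (hc : ∀ m < p ^ (r - a), |c m - ((V * u ^ m : ℤ) : ℝ) / R| ≤ 1 / (2 * R))
    {y : ℝ} (hy0 : 0 ≤ y) (hy1 : y ≤ 1) :
    |((({m ∈ range (p ^ (r - a)) | Int.fract (c m) < y} : Finset ℕ).card : ℕ) : ℝ) -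
      (p : ℝ) ^ (r - a) * y| ≤ 3 := by
  classical
  have hpZ : Prime (p : ℤ) := Nat.prime_iff_prime_int.1 hp
  have hp0 : 0 < p := hp.pos
  have hH0 : 0 < H := hH
  have hpR : (0 : ℝ) < p := by exact_mod_cast hp0
  have hHR : (0 : ℝ) < H := by exact_mod_cast hH0
  have hR0 : (0 : ℝ) < R := by rw [hR]; positivity
  have hprZ : (0 : ℤ) < (p : ℤ) ^ r * H := by positivity
  set P := p ^ (r - a) with hP
  set Q : ℤ := (p : ℤ) ^ r * H with hQ
  have hQR : ((Q : ℤ) : ℝ) = R := by rw [hQ, hR]; push_cast; rfl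
  have hr1 : 1 ≤ r := by omega
  have hprQ : (p : ℤ) ^ r ∣ Q := dvd_mul_right _ _
  have hu1 : ¬ (p : ℤ) ∣ u := by
    intro h1
    have h2 : (p : ℤ) ∣ (p : ℤ) ^ a * w := Dvd.dvd.mul_right (dvd_pow_self _ (by omega)) _
    have h3 : (p : ℤ) ∣ 1 := by
      have := dvd_sub h1 h2
      rwa [hu, add_sub_cancel_right] at this
    exact hpZ.not_isUnit (isUnit_of_dvd_one h3)
  set q : ℕ := p ^ a * H with hq
  have hq1 : 1 ≤ q := Nat.mul_pos (pow_pos hp0 _) hH0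
  have hqu : (q : ℤ) ∣ u - 1 := by
    have h1 : (p : ℤ) ^ a ∣ u - 1 := by
      rw [hu, add_sub_cancel_left]
      exact dvd_mul_right _ _
    have h2 : IsCoprime ((p : ℤ) ^ a) (H : ℤ) := by
      apply IsCoprime.pow_left
      rw [Prime.coprime_iff_not_dvd hpZ]
      exact_mod_cast hpH
    have h3 := h2.mul_dvd h1 hHu
    rw [hq]
    push_cast
    exact h3
  have hqQ : Q = (q : ℤ) * (P : ℤ) := by
    rw [hQ, hP, hq]
    push_cast
    have h1 : (p : ℤ) ^ r = (p : ℤ) ^ a * (p : ℤ) ^ (r - a) := by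
      rw [← pow_add]
      congr 1
      omega
    rw [h1]
    ring
  set ρ : ℕ → ℤ := fun m => (V * u ^ m) % Q with hρ
  have hρ0 : ∀ m, 0 ≤ ρ m := fun m => Int.emod_nonneg _ hprZ.ne'
  have hρQ : ∀ m, ρ m < Q := fun m => Int.emod_lt_of_pos _ hprZ
  have hρ1 : ∀ m, 1 ≤ ρ m := by
    intro m
    rcases (hρ0 m).lt_or_eq with h | h
    · exact h
    · exfalso
      have h1 : Q ∣ V * u ^ m := Int.dvd_of_emod_eq_zero h.symm
      have h2 : (p : ℤ) ∣ V * u ^ m := dvd_trans (dvd_trans (dvd_pow_self _ (by omega)) hprQ) h1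
      rcases hpZ.dvd_or_dvd h2 with h5 | h5
      · exact hV h5
      · exact hu1 (hpZ.dvd_of_dvd_pow h5)
  have hρinj : Set.InjOn ρ (range P : Finset ℕ) := by
    intro i hi j hj hij
    rw [coe_range, Set.mem_Iio] at hi hj
    have h1 : (V * u ^ i) ≡ (V * u ^ j) [ZMOD Q] := hij
    have h2 : (p : ℤ) ^ r ∣ V * u ^ i - V * u ^ j := dvd_trans hprQ (Int.ModEq.dvd h1.symm)
    rcases lt_trichotomy i j with h | h | h
    · exfalso
      refine pow_inj hp ha ha2 hu hw hr hV hj h ?_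
      rw [← neg_sub]
      exact (dvd_neg).2 h2
    · exact h
    · exact (pow_inj hp ha ha2 hu hw hr hV hi h h2).elim
  set S : Finset ℤ := {x ∈ Ico (0 : ℤ) Q | x ≡ V [ZMOD q]} with hS
  have hpa : (0 : ℤ) < (q : ℤ) := by exact_mod_cast hq1
  have hup : ∀ m : ℕ, u ^ m ≡ 1 [ZMOD q] := by
    intro m
    have h1 : u ≡ 1 [ZMOD q] := (Int.modEq_iff_dvd.2 hqu).symm
    simpa using h1.pow m
  have hsub : (range P).image ρ ⊆ S := by
    intro x hx
    rw [mem_image] at hx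
    obtain ⟨m, hm, rfl⟩ := hx
    rw [hS, mem_filter, mem_Ico]
    refine ⟨⟨hρ0 m, hρQ m⟩, ?_⟩
    have h1 : ρ m ≡ V * u ^ m [ZMOD Q] := Int.mod_modEq _ _
    have h2 : ρ m ≡ V * u ^ m [ZMOD q] := by
      apply h1.of_dvd
      rw [hqQ]
      exact dvd_mul_right _ _
    refine h2.trans ?_
    simpa using (Int.ModEq.mul_left V (hup m))
  have hcardS : S.card = P := by
    have h1 := Int.Ico_filter_modEq_card (a := 0) (b := Q) hpa V
    rw [← hS] at h1
    have h3 : ⌈((Q : ℚ) - (V : ℚ)) / ((q : ℤ) : ℚ)⌉ =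
        ⌈(((0 : ℤ) : ℚ) - (V : ℚ)) / ((q : ℤ) : ℚ)⌉ + P := by
      rw [← Int.ceil_add_natCast]
      congr 1
      have h4 : ((q : ℤ) : ℚ) ≠ 0 := by exact_mod_cast hpa.ne'
      rw [hqQ]
      push_cast at h4 ⊢
      field_simp
      ring
    rw [h3] at h1
    have h5 : max (⌈(((0 : ℤ) : ℚ) - (V : ℚ)) / ((q : ℤ) : ℚ)⌉ + (P : ℤ) -
        ⌈(((0 : ℤ) : ℚ) - (V : ℚ)) / ((q : ℤ) : ℚ)⌉) 0 = P := by
      rw [add_sub_cancel_left]
      exact max_eq_left (by positivity)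
    rw [h5] at h1
    exact_mod_cast h1
  have himg : (range P).image ρ = S := by
    apply eq_of_subset_of_card_le hsub
    rw [hcardS, card_image_of_injOn hρinj, card_range]
  -- counting the residues below `z`
  have hcnt : ∀ z : ℝ, ({m ∈ range P | (ρ m : ℝ) < z} : Finset ℕ).card =
      ({x ∈ S | (x : ℝ) < z} : Finset ℤ).card := by
    intro z
    rw [← himg, filter_image, card_image_of_injOn]
    exact hρinj.mono (by
      intro x hx
      rw [mem_coe, mem_filter] at hx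
      exact hx.1)
  have hPR : ((P : ℕ) : ℝ) = (p : ℝ) ^ (r - a) := by rw [hP]; push_cast; rfl
  have hq1R : (1 : ℝ) ≤ (q : ℝ) := by exact_mod_cast hq1
  have hq0R : (0 : ℝ) < (q : ℝ) := by linarith
  have hPQ : R / (q : ℝ) = (p : ℝ) ^ (r - a) := by
    rw [div_eq_iff hq0R.ne', ← hQR, hqQ, ← hPR]
    push_cast
    ring
  have hlow : ∀ z : ℝ, z ≤ R → z / (q : ℝ) - 2 ≤
      ((({m ∈ range P | (ρ m : ℝ) < z} : Finset ℕ).card : ℕ) : ℝ) := by
    intro z hz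
    rcases le_or_gt 0 z with h0 | h0
    · have h1 := (abs_le.1 (XP.class_count q hq1 V z h0)).1
      have h2 : ({x ∈ Ico (0 : ℤ) ⌈z⌉ | x ≡ V [ZMOD q]} : Finset ℤ).card ≤
          ({x ∈ S | (x : ℝ) < z} : Finset ℤ).card := by
        apply card_le_card
        intro x hx
        rw [mem_filter, mem_Ico] at hx
        rw [mem_filter, hS, mem_filter, mem_Ico]
        have h3 : (x : ℝ) < z := Int.lt_ceil.1 hx.1.2
        refine ⟨⟨⟨hx.1.1, ?_⟩, hx.2⟩, h3⟩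
        have h4 : (x : ℝ) < ((Q : ℤ) : ℝ) := by rw [hQR]; linarith
        exact_mod_cast h4
      rw [hcnt z]
      have h3 : ((({x ∈ Ico (0 : ℤ) ⌈z⌉ | x ≡ V [ZMOD q]} : Finset ℤ).card : ℕ) : ℝ) ≤
          ((({x ∈ S | (x : ℝ) < z} : Finset ℤ).card : ℕ) : ℝ) := by exact_mod_cast h2
      linarith
    · have h1 : z / (q : ℝ) ≤ 0 := div_nonpos_of_nonpos_of_nonneg h0.le (by positivity)
      have h2 : (0 : ℝ) ≤ ((({m ∈ range P | (ρ m : ℝ) < z} : Finset ℕ).card : ℕ) : ℝ) :=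
        Nat.cast_nonneg _
      linarith
  have hupp : ∀ z : ℝ, 0 ≤ z →
      ((({m ∈ range P | (ρ m : ℝ) < z} : Finset ℕ).card : ℕ) : ℝ) ≤ z / (q : ℝ) + 2 := by
    intro z h0
    have h1 := (abs_le.1 (XP.class_count q hq1 V z h0)).2
    have h2 : ({x ∈ S | (x : ℝ) < z} : Finset ℤ).card ≤
        ({x ∈ Ico (0 : ℤ) ⌈z⌉ | x ≡ V [ZMOD q]} : Finset ℤ).card := by
      apply card_le_card
      intro x hx
      rw [mem_filter, hS, mem_filter, mem_Ico] at hx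
      rw [mem_filter, mem_Ico]
      exact ⟨⟨hx.1.1.1, Int.lt_ceil.2 hx.2⟩, hx.1.2⟩
    rw [hcnt z]
    have h3 : ((({x ∈ S | (x : ℝ) < z} : Finset ℤ).card : ℕ) : ℝ) ≤
        ((({x ∈ Ico (0 : ℤ) ⌈z⌉ | x ≡ V [ZMOD q]} : Finset ℤ).card : ℕ) : ℝ) := by
      exact_mod_cast h2
    linarith
  -- the fractional parts
  have hfr : ∀ m < P, |Int.fract (c m) - (ρ m : ℝ) / R| ≤ 1 / (2 * R) := by
    intro m hm
    have h1 := hc m hm
    have h2 : V * u ^ m = Q * ((V * u ^ m) / Q) + ρ m := (Int.mul_ediv_add_emod _ _).symm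
    have h3 : ((V * u ^ m : ℤ) : ℝ) / R = (((V * u ^ m) / Q : ℤ) : ℝ) +
        (ρ m : ℝ) / R := by
      have h4 : ((V * u ^ m : ℤ) : ℝ) = R * (((V * u ^ m) / Q : ℤ) : ℝ) + ρ m := by
        rw [← hQR]
        exact_mod_cast h2
      rw [h4]
      field_simp
    rw [h3] at h1
    set k : ℤ := (V * u ^ m) / Q with hk
    have h5 : (1 : ℝ) ≤ ρ m := by exact_mod_cast hρ1 m
    have h6 : (ρ m : ℝ) ≤ R - 1 := by
      have := hρQ m
      have h7 : ((ρ m : ℤ) : ℝ) ≤ ((Q - 1 : ℤ) : ℝ) := by exact_mod_cast (by omega : ρ m ≤ Q - 1)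
      push_cast at h7
      rw [hQR] at h7
      exact h7
    have h8 : 1 / (2 * R) = (1 / 2) / R := by field_simp
    have h9 : (1 : ℝ) / R ≤ (ρ m : ℝ) / R :=
      div_le_div_of_nonneg_right h5 hR0.le
    have h10 : (ρ m : ℝ) / R ≤ 1 - 1 / R := by
      have h10' : (1 : ℝ) - 1 / R = (R - 1) / R := by
        rw [sub_div, div_self hR0.ne']
      rw [h10']
      exact div_le_div_of_nonneg_right h6 hR0.le
    have h11 : (1 / 2) / R < 1 / R :=
      div_lt_div_of_pos_right (by norm_num) hR0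
    rw [h8] at h1 ⊢
    rw [abs_le] at h1
    have hfloor : ⌊c m⌋ = k := by
      rw [Int.floor_eq_iff]
      constructor <;> linarith [h1.1, h1.2]
    have h12 : Int.fract (c m) = c m - k := by rw [← hfloor]; rfl
    rw [h12, abs_le]
    constructor <;> linarith [h1.1, h1.2]
  have hlt1 : ∀ m < P, Int.fract (c m) < y → (ρ m : ℝ) < R * y + 1 / 2 := by
    intro m hm h
    have h1 := (abs_le.1 (hfr m hm)).1
    have h2 : (ρ m : ℝ) / R < y + 1 / (2 * R) := by linarith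
    rw [div_lt_iff₀ hR0] at h2
    have h3 : (y + 1 / (2 * R)) * R = R * y + 1 / 2 := by
      field_simp
    rwa [h3] at h2
  have hlt2 : ∀ m < P, (ρ m : ℝ) < R * y - 1 / 2 → Int.fract (c m) < y := by
    intro m hm h
    have h1 := (abs_le.1 (hfr m hm)).2
    have h2 : (ρ m : ℝ) / R < y - 1 / (2 * R) := by
      rw [div_lt_iff₀ hR0]
      have h3 : (y - 1 / (2 * R)) * R = R * y - 1 / 2 := by
        field_simp
      rwa [h3]
    linarith
  have hc1 : ({m ∈ range P | Int.fract (c m) < y} : Finset ℕ).card ≤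
      ({m ∈ range P | (ρ m : ℝ) < R * y + 1 / 2} : Finset ℕ).card := by
    apply card_le_card
    intro m hm
    rw [mem_filter, mem_range] at hm ⊢
    exact ⟨hm.1, hlt1 m hm.1 hm.2⟩
  have hc2 : ({m ∈ range P | (ρ m : ℝ) < R * y - 1 / 2} : Finset ℕ).card ≤
      ({m ∈ range P | Int.fract (c m) < y} : Finset ℕ).card := by
    apply card_le_card
    intro m hm
    rw [mem_filter, mem_range] at hm ⊢
    exact ⟨hm.1, hlt2 m hm.1 hm.2⟩
  have hc1' : ((({m ∈ range P | Int.fract (c m) < y} : Finset ℕ).card : ℕ) : ℝ) ≤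
      ((({m ∈ range P | (ρ m : ℝ) < R * y + 1 / 2} : Finset ℕ).card : ℕ) : ℝ) := by
    exact_mod_cast hc1
  have hc2' : ((({m ∈ range P | (ρ m : ℝ) < R * y - 1 / 2} : Finset ℕ).card : ℕ) : ℝ) ≤
      ((({m ∈ range P | Int.fract (c m) < y} : Finset ℕ).card : ℕ) : ℝ) := by
    exact_mod_cast hc2
  have hA := hupp (R * y + 1 / 2) (by positivity)
  have hB := hlow (R * y - 1 / 2) (by nlinarith)
  have hd1 : (R * y + 1 / 2) / (q : ℝ) = (p : ℝ) ^ (r - a) * y +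
      (1 / 2) / (q : ℝ) := by
    rw [add_div, mul_div_right_comm, hPQ]
  have hd2 : (R * y - 1 / 2) / (q : ℝ) = (p : ℝ) ^ (r - a) * y -
      (1 / 2) / (q : ℝ) := by
    rw [sub_div, mul_div_right_comm, hPQ]
  have hd3 : (1 / 2) / (q : ℝ) ≤ 1 := by
    rw [div_le_one (by positivity)]
    linarith
  rw [hd1] at hA
  rw [hd2] at hB
  rw [abs_le]
  constructor <;> linarith

end P_RUN2

theorem t_RUN2 : S_RUN2 := by
  intro p hp a u w H ha ha2 hu hw hH hpH hHu r hr V hV c hc y hy0 hy1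
  exact P_RUN2.run hp ha ha2 hu hw hH hpH hHu hr hV c rfl hc hy0 hy1

end Pool.Agent.H609.RI
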