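import Pool.Agent.H609.RI.Stm2

set_option autoImplicit false

namespace Pool.Agent.H609.RI

theorem t_SPL : S_SPL := by
  intro b d hb hd
  induction d using Nat.strong_induction_on with
  | _ d ih =>
    by_cases hg : Nat.gcd b d = 1
    · exact ⟨1, d, 0, (one_mul d).symm, hg, one_dvd _⟩
    · have hg0 : 0 < Nat.gcd b d := Nat.gcd_pos_of_pos_left d hb
      obtain ⟨m, hm⟩ := Nat.gcd_dvd_right b d
      have hm0 : 0 < m := by
        rcases Nat.eq_zero_or_pos m with h | h
        · rw [h, Nat.mul_zero] at hm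
          omega
        · exact h
      have hlt : m < d := by
        have h2 : 2 ≤ Nat.gcd b d := by omega
        have h3 : 2 * m ≤ Nat.gcd b d * m := Nat.mul_le_mul_right m h2
        rw [← hm] at h3
        omega
      obtain ⟨d₁, d₂, e, h1, h2, h3⟩ := ih m hlt hm0
      refine ⟨Nat.gcd b d * d₁, d₂, e + 1, ?_, h2, ?_⟩
      · rw [mul_assoc, ← h1]
        exact hm
      · rw [pow_succ, mul_comm (b ^ e) b]
        exact Nat.mul_dvd_mul (Nat.gcd_dvd_left b d) h3

end Pool.Agent.H609.RI
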