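import Pool.Agent.H609.XP.Count
import Pool.Agent.H609.XP.Block

/-!
# The initial digits of the roots of explicit integers: statements

Aim: (1) for an odd prime `p` and a base `b` prime to `p` the first `N` digits in base `b` of
`((b ^ n) ^ p + 1) ^ (1 / p)` are equidistributed, with error `O(n)`, for all `N ≤ c n log n`; (2) the same for
the square roots of `(p ^ m b ^ n) ^ 2 + 4`, `p ^ (2 m) ≥ log n`, `N ≤ c n log n / m`; (3) if all prime divisors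
of `d` divide `b`, then all but `C (N / n + 1) ^ 2` of the first `N` digits of `((b ^ n) ^ d + 1) ^ (1 / d)` are
`0` or `b - 1`.

The idea: `(1 + d ^ 2 x) ^ (1 / d) = ∑ a k x ^ k` with integers `a k`. With `x = 1 / Q`, where `Q` is a power of
`p` times a power of `b`, the digits in the `i`-th block are those of the rational number `M a Q i / p ^ ..`.
-/

set_option autoImplicit false

namespace Pool.Agent.H609.RI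

open Finset
open Pool.Agent.H609.XP (Er)

/-- `∑_{k ≤ i} a k Q ^ (i - k)`; so `M a Q 0 = a 0` and `M a Q (i + 1) = a (i + 1) + Q * M a Q i`. -/
def M (a : ℕ → ℤ) (Q : ℤ) (i : ℕ) : ℤ := ∑ k ∈ range (i + 1), a k * Q ^ (i - k)

/-- the properties of the coefficients of `(1 + d ^ 2 x) ^ (1 / d) = ∑ a k x ^ k` -/
def Coef (d : ℕ) (a : ℕ → ℤ) : Prop :=
  a 0 = 1 ∧ (∀ k : ℕ, ((k : ℤ) + 1) * a (k + 1) = (d : ℤ) * (1 - (d : ℤ) * k) * a k) ∧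
    ∀ k : ℕ, |a k| ≤ (d : ℤ) ^ (2 * k)

/-- **ROOT.** `(1 + d ^ 2 x) ^ (1 / d) = ∑ a k x ^ k` with integers `a k`.

Proof. `XP.exists_root (d := d) hd 1` (file `Pool/Agent/H609/XP/Root.lean`) gives `F : ℤ⟦X⟧` with
`F ^ d = 1 + C (d ^ 2 * 1) * X` and `constantCoeff F = 1`. Put `a k = coeff k F`. Recurrence: the derivative
(`PowerSeries.derivative ℤ` or `d⁄dX ℤ`) of the equation is `d F ^ (d - 1) F' = C (d ^ 2)`; times `F`: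
`d F ^ d F' = C (d ^ 2) F`, so `d (1 + C (d ^ 2) X) F' = d ^ 2 F`, cancel `d`:
`(1 + C (d^2) X) F' = d F`; compare the coefficients at `X ^ k`:
`(k + 1) a (k + 1) + d ^ 2 k a k = d a k` (`coeff_derivative`; `k = 0` separately). Bound: induction,
`|a (k+1)| = d |1 - d k| / (k + 1) |a k| ≤ d ^ 2 |a k|` as `|1 - d k| ≤ d (k + 1)`.
Sum: for `4 d ^ 2 x ≤ 1` the series converges absolutely (`|a k| x ^ k ≤ (1/4) ^ k`); call the sum `S`. Then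
`S ^ d = 1 + d ^ 2 x`: evaluation at `x` is a ring homomorphism on the absolutely convergent power series
(model: the end of the proof of `XP.roots` in `Pool/Agent/H609/XP/Roots.lean`, which uses
`Pool.Agent.H609.GF (Sm ev evA ev_poly)`, `XP.coeff_map'`; see `XP.sm` in `XP/Main.lean` for `Sm`). And `S > 0`,
as `|S - 1| ≤ ∑_{k ≥ 1} (1/4) ^ k = 1/3`. So `S = (1 + d ^ 2 x) ^ (1 / d)`. -/
def S_ROOT : Prop := ∀ d : ℕ, 1 ≤ d → ∃ a : ℕ → ℤ, Coef d a ∧ ∀ x : ℝ, 0 ≤ x →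
  4 * (d : ℝ) ^ 2 * x ≤ 1 →
    HasSum (fun k : ℕ => ((a k : ℤ) : ℝ) * x ^ k) ((1 + (d : ℝ) ^ 2 * x) ^ (1 / (d : ℝ)))

/-- **TAIL.** Proof. `S Q ^ i - M a Q i = ∑_{k > i} a k Q ^ (i - k)` (`HasSum` of the shifted series, e.g.
`hasSum_nat_add_iff'`), and `|a (i + 1 + l)| Q ^ (-1-l) ≤ d ^ (2 (i + 1)) / Q * (d ^ 2 / Q) ^ l` with
`d ^ 2 / Q ≤ 1 / 4`: a geometric series with sum at most `4 / 3`. -/
def S_TAIL : Prop := ∀ (d : ℕ) (a : ℕ → ℤ), 1 ≤ d → Coef d a → ∀ Q : ℤ, 4 * (d : ℤ) ^ 2 ≤ Q →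
  ∀ S : ℝ, HasSum (fun k : ℕ => ((a k : ℤ) : ℝ) * (((Q : ℤ) : ℝ)⁻¹) ^ k) S →
    ∀ i : ℕ, |S * ((Q : ℤ) : ℝ) ^ i - ((M a Q i : ℤ) : ℝ)| ≤ 2 * (d : ℝ) ^ (2 * (i + 1)) / ((Q : ℤ) : ℝ)

/-- **VALA.** Proof. Let `v k` be the exact power of `p` in `a k` (`emultiplicity`/`padicValInt`; `a k ≠ 0` by the
recurrence, because `1 - p k ≠ 0`). From `(k + 1) a (k + 1) = p (1 - p k) a k` and `p ∤ 1 - p k`:
`v (k + 1) + v_p (k + 1) = v k + 1`, so `v (k + 1) ≤ v k + 1`, `v 0 = 0`, `v k ≤ k`. Induction: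
`p ^ (v i)` exactly divides `M a (p ^ 2 * y) i`: `M (i + 1) = a (i + 1) + p ^ 2 y M i` and `p ^ (v i + 2)` divides
`p ^ 2 y M i`, while `v (i + 1) ≤ v i + 1`. Put `M i = p ^ (v i) V`, `r = 2 i - v i`. -/
def S_VALA : Prop := ∀ (p : ℕ) (a : ℕ → ℤ), p.Prime → Coef p a → ∀ (y : ℤ) (i : ℕ),
  ∃ (V : ℤ) (r : ℕ), ¬ (p : ℤ) ∣ V ∧ i ≤ r ∧ r ≤ 2 * i ∧
    M a ((p : ℤ) ^ 2 * y) i * (p : ℤ) ^ r = V * (p : ℤ) ^ (2 * i)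

/-- **VALB.** Proof. The recurrence `(k + 1) a (k + 1) = 2 (1 - 2 k) a k` and `a 0 = 1` give
`a (k + 1) = 2 (-1) ^ k * catalan k` for all `k ≥ 0` (`a 1 = 2`; `succ_mul_catalan_eq_centralBinom`,
`Nat.succ_mul_centralBinom_succ`), so `k a k = ± 2 centralBinom (k - 1)` for `k ≥ 1`. Let `v` be the exact power
of the odd prime `p` in `a i`, `i ≥ 1`. It divides `centralBinom (i - 1) = choose (2 (i - 1)) (i - 1)`, so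
`p ^ v ≤ 2 i` (`Nat.factorization_choose_le_log`, `Nat.pow_factorization_choose_le`). Hence `v < 2 m`, by
`2 i < p ^ (2 m)`, and `v ≤ i` (`2 i ≤ 3 ^ i`). As `p ^ (2 m) ∣ p ^ (2 m) y M (i - 1)`, `p ^ v` exactly divides
`M i = a i + p ^ (2 m) y M (i - 1)`; `M i = p ^ v V`, `r = 2 m i - m - v`; `v ≤ i ≤ m (2 i - 1) - (i - 1)`. -/
def S_VALB : Prop := ∀ (p : ℕ) (a : ℕ → ℤ), p.Prime → Odd p → Coef 2 a → ∀ (m : ℕ) (y : ℤ) (i : ℕ),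
  1 ≤ m → 1 ≤ i → 2 * i < p ^ (2 * m) →
  ∃ (V : ℤ) (r : ℕ), ¬ (p : ℤ) ∣ V ∧ i ≤ r + 1 ∧ r ≤ 2 * m * i ∧
    M a ((p : ℤ) ^ (2 * m) * y) i * (p : ℤ) ^ m * (p : ℤ) ^ r = V * (p : ℤ) ^ (2 * m * i)

/-- **BK1** (one block). Proof. Let `t = orderOf (b : ZMod p)` (or `p - 1`): `b ^ t = 1 + p ^ e w`, `e ≥ 1`, `p ∤ w`
(`b ^ t > 1`; model: the proof of `XP.digits` in `Pool/Agent/H609/XP/Main.lean` or `Series.lean`, grep `run`).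
`C = 3 p ^ e + t + 1`. If `r < e`: `|Er| ≤ L ≤ p ^ e L / p ^ r` (`XP.Er_le`). If `r ≥ e`: `T = t p ^ (r - e)`; for
all `s` with `A ≤ s`, `s + T + g ≤ A + n` one has `|Er x y s T| ≤ 3 t` by `XP.Er_run` and `XP.run` (with
`V b ^ (s - A + i)` in place of `V`, `u = b ^ t`, `c m = x (s + (i + t m))`); then `XP.Er_block` with
`e := 3 t` gives `|Er x y s L| ≤ 3 t (L / T) + T + g`. -/
def S_BK1 : Prop := ∀ (b p : ℕ), 2 ≤ b → p.Prime → Odd p → ¬ p ∣ b → ∃ C : ℝ, 0 < C ∧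
  ∀ (n g A r : ℕ) (x : ℕ → ℝ) (V : ℤ), ¬ (p : ℤ) ∣ V →
    (∀ t, t < n → t + g ≤ n →
      |x (A + t) - (b : ℝ) ^ t * ((V : ℤ) : ℝ) / (p : ℝ) ^ r| ≤ 1 / (2 * (p : ℝ) ^ r)) →
    ∀ y : ℝ, 0 ≤ y → y ≤ 1 → ∀ s L : ℕ, A ≤ s → s + L ≤ A + n →
      |Er x y s L| ≤ C * (L / (p : ℝ) ^ r + (p : ℝ) ^ r + g)

/-- **BK2** (all blocks): `S_BK1 → S_BK2`. Here the block `i` consists of the places `n i - o, …, n (i + 1) - o - 1`.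
Proof. In the block `i`, `1 ≤ i ≤ I`, apply `S_BK1` with `A = n i - o`, `g = 4 + p w i`: if `t + g ≤ n`, then
`8 b ^ t / b ^ n ≤ 8 / 2 ^ (4 + p r_i) ≤ 1 / (2 p ^ r_i)`, because `p ≤ 2 ^ p`. So every window in the block has
`|Er| ≤ C₁ (n / p ^ r_i + p ^ r_i + 4 + p w i)`. Cut `[0, N)` at the ends of the blocks (`XP.Er_add`, induction
on the number of the blocks; the block `0`, of length `n - o`, is bounded by `XP.Er_le`). As `i ≤ r_i + 1`,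
`∑ 1 / p ^ r_i ≤ ∑ 1 / 2 ^ (i - 1) ≤ 2`; and `p ^ r_i ≤ p ^ (w I)`. -/
def S_BK2 : Prop := ∀ (b p : ℕ), 2 ≤ b → p.Prime → Odd p → ¬ p ∣ b → ∃ C : ℝ, 0 < C ∧
  ∀ (w I n o : ℕ) (x : ℕ → ℝ) (V : ℕ → ℤ) (r : ℕ → ℕ), 1 ≤ w → 0 < n → o ≤ n →
    (∀ i, 1 ≤ i → i ≤ I → ¬ (p : ℤ) ∣ V i ∧ i ≤ r i + 1 ∧ r i ≤ w * i ∧
      ∀ t, t < n → |x (n * i - o + t) - (b : ℝ) ^ t * ((V i : ℤ) : ℝ) / (p : ℝ) ^ r i| ≤
        8 * (b : ℝ) ^ t / (b : ℝ) ^ n) →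
    ∀ y : ℝ, 0 ≤ y → y ≤ 1 → ∀ N : ℕ, N + o ≤ n * (I + 1) →
      |Er x y 0 N| ≤ C * (n + (I + 1) * (w * (I + 1) + (p : ℝ) ^ (w * I)))

/-- **FA**: `S_ROOT → S_TAIL → S_VALA → S_BK2 → S_FA`, the `p`-th roots of `(b ^ n) ^ p + 1`.
Proof. `d = p`, `Q = p ^ 2 b ^ (p n)` (as an integer, `4 p ^ 2 ≤ Q` for `n ≥ 1`), `x₀ = 1 / Q`,
`S = (1 + p ^ 2 / Q) ^ (1 / p)`, so `((b ^ n) ^ p + 1) ^ (1 / p) = b ^ n S` (`Real.mul_rpow`,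
`Real.pow_rpow_inv_natCast`). Use `S_BK2` with `w = 2`, block length `p n`, `o = n`, and `V i`, `r i` from
`S_VALA` (`y = b ^ (p n)`). For `j = p n i - n + t`: `b ^ j b ^ n S = b ^ t (b ^ (p n)) ^ i S = b ^ t (S Q ^ i) / p ^ (2 i)`,
which differs from `b ^ t M_i / p ^ (2 i) = b ^ t V_i / p ^ r_i` by at most
`b ^ t / p ^ (2 i) * 2 p ^ (2 (i + 1)) / Q = 2 b ^ t / b ^ (p n)`. Take `I = ⌊log n / (4 log p)⌋₊`, so that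
`p ^ (2 I) ≤ n ^ (1/2)`, and the bound of `S_BK2` is `C (p n + (I + 1) (2 (I + 1) + n ^ (1/2))) ≤ C' n` for large
`n` (or all `n`, with another constant), and all `N ≤ c n log n`, `c = 1 / (8 log p)` say, satisfy
`N + n ≤ p n (I + 1)`. -/
def S_FA : Prop := ∀ (b p : ℕ), 2 ≤ b → p.Prime → Odd p → ¬ p ∣ b → ∃ c C : ℝ, 0 < c ∧ 0 < C ∧
  ∃ n₀ : ℕ, ∀ n : ℕ, n₀ ≤ n → ∀ y : ℝ, 0 ≤ y → y ≤ 1 → ∀ N : ℕ, (N : ℝ) ≤ c * (n * Real.log n) →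
    |Er (fun j => (b : ℝ) ^ j * ((((b : ℝ) ^ n) ^ p + 1) ^ (1 / (p : ℝ)))) y 0 N| ≤ C * n

/-- **FB**: `S_ROOT → S_TAIL → S_VALB → S_BK2 → S_FB`, the square roots of `(p ^ m b ^ n) ^ 2 + 4`.
Proof. `d = 2`, `Q = p ^ (2 m) b ^ (2 n)`, `x₀ = 1 / Q`, `S = (1 + 4 / Q) ^ (1 / 2)`,
`sqrt ((p ^ m b ^ n) ^ 2 + 4) = p ^ m b ^ n S`. Use `S_BK2` with `w = 2 m`, block length `2 n`, `o = n`, `V i`, `r i`
from `S_VALB` (`y = b ^ (2 n)`). For `j = 2 n i - n + t`: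
`b ^ j p ^ m b ^ n S = b ^ t p ^ m (b ^ (2 n)) ^ i S = b ^ t p ^ m (S Q ^ i) / p ^ (2 m i)`, which differs from
`b ^ t p ^ m M_i / p ^ (2 m i) = b ^ t V_i / p ^ r_i` by at most
`b ^ t p ^ m / p ^ (2 m i) * 2 * 4 ^ (i + 1) / (p ^ (2 m) b ^ (2 n)) ≤ 8 b ^ t / b ^ (2 n)`
(`i ≥ 1`: `4 ^ i ≤ p ^ (2 m i)`, `p ^ m ≤ p ^ (2 m)`). `I = ⌊log n / (4 m log p)⌋₊`, so `p ^ (2 m I) ≤ n ^ (1/2)`; for
`i ≤ I` one has `2 i ≤ log n / (2 m log p) < log n ≤ p ^ (2 m)`. The bound of `S_BK2` is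
`C (2 n + (I + 1) (2 m (I + 1) + n ^ (1/2)))`, and `m (I + 1) ^ 2 ≤ ...`: for `I ≥ 1` one has `m ≤ log n`, so it is
`≤ C' n`; if `I = 0` (large `m`) then `N ≤ c n log n / m` is `≤ n` for suitable `c` (`c = 1 / (8 log p)`: `N ≤ n I`
or `N ≤ n`), and `|Er| ≤ N ≤ n` by `XP.Er_le`. -/
def S_FB : Prop := ∀ (b p : ℕ), 2 ≤ b → p.Prime → Odd p → ¬ p ∣ b → ∃ c C : ℝ, 0 < c ∧ 0 < C ∧
  ∃ n₀ : ℕ, ∀ n : ℕ, n₀ ≤ n → ∀ m : ℕ, 1 ≤ m → Real.log n ≤ (p : ℝ) ^ (2 * m) →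
    ∀ y : ℝ, 0 ≤ y → y ≤ 1 → ∀ N : ℕ, (N : ℝ) ≤ c * (n * Real.log n) / m →
    |Er (fun j => (b : ℝ) ^ j * Real.sqrt (((p : ℝ) ^ m * (b : ℝ) ^ n) ^ 2 + 4)) y 0 N| ≤ C * n

/-- **ZER**: `S_ROOT → S_TAIL → S_ZER`. If all prime divisors of `d` divide `b` (i.e. `d ∣ b ^ e` for some `e`),
then most of the initial digits of `((b ^ n) ^ d + 1) ^ (1 / d)` are `0` or `b - 1`.
Proof. `Q = d ^ 2 b ^ (d n)`, `((b ^ n) ^ d + 1) ^ (1 / d) = b ^ n S`, `S = (1 + d ^ 2 / Q) ^ (1 / d)`, `n ≥ 1`. Let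
`j + n = d n i + t`, `t < d n`. Then `b ^ j b ^ n S = b ^ t (S Q ^ i) / d ^ (2 i)` differs from
`b ^ t M_i / d ^ (2 i)` by at most `2 b ^ t / b ^ (d n)`, and if `t ≥ 2 e i`, `b ^ t / d ^ (2 i)` is an integer. So if
`2 e i ≤ t` and `t + 3 ≤ d n`, the number `b ^ j b ^ n S` is closer than `1 / b` to an integer
(`2 / b ^ 3 < 1 / b`, if `b ≥ 2`), and the digit is `0` or `b - 1`. The exceptional `j < N` have
`i ≤ (N + n) / (d n) ≤ N / n + 1` and, for given `i`, at most `2 e i + 3` values of `t`; map `j` to the pair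
`(i, t)` or `(i, d n - t)`, so there are at most `∑_{i ≤ X} (2 e i + 3) ≤ (2 e + 3) (X + 1) ^ 2`,
`X = N / n + 1`. -/
def S_ZER : Prop := ∀ (b d : ℕ), 2 ≤ b → 2 ≤ d → (∃ e, d ∣ b ^ e) → ∃ C : ℝ, 0 < C ∧
  ∀ n N : ℕ, 1 ≤ n →
    (({j : ℕ | j < N ∧
      ⌊(b : ℝ) * Int.fract ((b : ℝ) ^ j * ((((b : ℝ) ^ n) ^ d + 1) ^ (1 / (d : ℝ))))⌋ ≠ 0 ∧
      ⌊(b : ℝ) * Int.fract ((b : ℝ) ^ j * ((((b : ℝ) ^ n) ^ d + 1) ^ (1 / (d : ℝ))))⌋ ≠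
        (b : ℤ) - 1}.ncard : ℕ) : ℝ) ≤ C * ((N : ℝ) / n + 1) ^ 2

end Pool.Agent.H609.RI
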