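import Mathlib
import Pool.Agent.H609.RI.Stm

/-!
Project RI, task TAIL: the tail of the series.
-/

set_option autoImplicit false

namespace Pool.Agent.H609.RI

open Finset

theorem t_TAIL : S_TAIL := by
  intro d a hd hc Q hQ S hS i
  obtain ⟨-, -, hbd⟩ := hc
  have hd1 : (1 : ℝ) ≤ d := by exact_mod_cast hd
  obtain ⟨q, hq⟩ : ∃ q : ℝ, q = ((Q : ℤ) : ℝ) := ⟨_, rfl⟩
  have hq4 : 4 * (d : ℝ) ^ 2 ≤ q := by
    rw [hq]
    exact_mod_cast hQ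
  have hq0 : 0 < q := by nlinarith
  rw [← hq] at hS ⊢
  have h1 := (hasSum_nat_add_iff' (i + 1)).2 hS
  have h2 := h1.mul_right (q ^ i)
  have hM : (∑ k ∈ range (i + 1), ((a k : ℤ) : ℝ) * (q⁻¹) ^ k) * q ^ i = ((M a Q i : ℤ) : ℝ) := by
    unfold M
    push_cast
    rw [← hq, Finset.sum_mul]
    refine Finset.sum_congr rfl fun k hk => ?_
    rw [mem_range] at hk
    have e1 : q ^ i = q ^ (i - k) * q ^ k := by rw [← pow_add]; congr 1; omega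
    rw [e1, inv_pow]
    field_simp
  have hg : HasSum (fun l : ℕ => (d : ℝ) ^ (2 * (i + 1)) / q * (1 / 4 : ℝ) ^ l)
      ((d : ℝ) ^ (2 * (i + 1)) / q * (1 - 1 / 4 : ℝ)⁻¹) :=
    (hasSum_geometric_of_lt_one (by norm_num) (by norm_num)).mul_left _
  have hb : ∀ l : ℕ, ‖((a (l + (i + 1)) : ℤ) : ℝ) * (q⁻¹) ^ (l + (i + 1)) * q ^ i‖ ≤
      (d : ℝ) ^ (2 * (i + 1)) / q * (1 / 4 : ℝ) ^ l := by
    intro l
    have e1 : |((a (l + (i + 1)) : ℤ) : ℝ)| ≤ (d : ℝ) ^ (2 * (l + (i + 1))) := by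
      exact_mod_cast hbd (l + (i + 1))
    have e2 : (q⁻¹) ^ (l + (i + 1)) * q ^ i = q⁻¹ * (q⁻¹) ^ l := by
      rw [show l + (i + 1) = i + (l + 1) by ring, pow_add, inv_pow, pow_succ]
      field_simp
    have e3 : (d : ℝ) ^ 2 * q⁻¹ ≤ 1 / 4 := by
      rw [← div_eq_mul_inv, div_le_iff₀ hq0]
      linarith
    rw [mul_assoc, e2, Real.norm_eq_abs, abs_mul, abs_of_nonneg (by positivity : 0 ≤ q⁻¹ * (q⁻¹) ^ l)]
    calc |((a (l + (i + 1)) : ℤ) : ℝ)| * (q⁻¹ * (q⁻¹) ^ l)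
        ≤ (d : ℝ) ^ (2 * (l + (i + 1))) * (q⁻¹ * (q⁻¹) ^ l) := by gcongr
      _ = (d : ℝ) ^ (2 * (i + 1)) / q * ((d : ℝ) ^ 2 * q⁻¹) ^ l := by
          rw [mul_add, pow_add, mul_pow, pow_mul (d : ℝ) 2 l]
          ring
      _ ≤ (d : ℝ) ^ (2 * (i + 1)) / q * (1 / 4 : ℝ) ^ l := by gcongr
  have h3 := HasSum.norm_le_of_bounded h2 hg hb
  rw [Real.norm_eq_abs, sub_mul, hM] at h3
  refine h3.trans ?_
  have e4 : 0 ≤ (d : ℝ) ^ (2 * (i + 1)) / q := by positivity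
  calc (d : ℝ) ^ (2 * (i + 1)) / q * (1 - 1 / 4 : ℝ)⁻¹
      ≤ (d : ℝ) ^ (2 * (i + 1)) / q * 2 := by
        gcongr
        norm_num
    _ = _ := by ring

end Pool.Agent.H609.RI
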