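import Pool.Agent.H609.RI.Stm

/-!
# Project RI, VALB: the power of `p` in `M` for the square root (helper227)
-/

set_option autoImplicit false

namespace Pool.Agent.H609.RI

open Finset

namespace P_VALB

/-- `(k + 1) a (k + 1) = 2 (-1) ^ k centralBinom k`. -/
theorem coef_eq (a : ℕ → ℤ) (ha : Coef 2 a) (k : ℕ) :
    ((k : ℤ) + 1) * a (k + 1) = 2 * (-1) ^ k * (Nat.centralBinom k : ℤ) := by
  obtain ⟨h0, hr, _⟩ := ha
  induction k with
  | zero =>
    have := hr 0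
    rw [h0] at this
    simp only [Nat.cast_zero, zero_add, mul_zero, sub_zero, mul_one, one_mul, pow_zero,
      Nat.centralBinom_zero, Nat.cast_one, Nat.cast_ofNat] at this ⊢
    exact this
  | succ k ih =>
    have h1 := hr (k + 1)
    have h2 : ((k : ℤ) + 1) * (Nat.centralBinom (k + 1) : ℤ) = 2 * (2 * k + 1) * (Nat.centralBinom k : ℤ) := by
      have := Nat.succ_mul_centralBinom_succ k
      exact_mod_cast this
    have hk : ((k : ℤ) + 1) ≠ 0 := by positivity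
    apply mul_left_cancel₀ hk
    push_cast at h1 ⊢
    rw [pow_succ]
    linear_combination ((k : ℤ) + 1) * h1 - 2 * (2 * k + 1) * ih - 2 * (-1) ^ k * (-1) * h2

/-- `M (i + 1) = a (i + 1) + Q M i`. -/
theorem M_succ (a : ℕ → ℤ) (Q : ℤ) (i : ℕ) : M a Q (i + 1) = a (i + 1) + Q * M a Q i := by
  unfold M
  rw [Finset.sum_range_succ, Finset.mul_sum, Nat.sub_self, pow_zero, mul_one, add_comm]
  congr 1
  refine Finset.sum_congr rfl ?_
  intro k hk
  have hk' : k ≤ i := by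
    have := Finset.mem_range.mp hk
    omega
  have : i + 1 - k = (i - k) + 1 := by omega
  rw [this, pow_succ]
  ring

theorem two_mul_le (v : ℕ) : 2 * v ≤ 3 ^ v := by
  induction v with
  | zero => simp
  | succ v ih =>
    rw [pow_succ]
    have : 1 ≤ 3 ^ v := Nat.one_le_pow _ _ (by norm_num)
    omega

end P_VALB

/-- **VALB.** -/
theorem t_VALB : S_VALB := by
  intro p a hp hodd ha m y i hm hi h2i
  obtain ⟨j, rfl⟩ : ∃ j, i = j + 1 := ⟨i - 1, by omega⟩
  have hc := P_VALB.coef_eq a ha j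
  have hcb : (Nat.centralBinom j : ℤ) ≠ 0 := by
    exact_mod_cast Nat.centralBinom_ne_zero j
  have hne : a (j + 1) ≠ 0 := by
    intro h
    rw [h, mul_zero] at hc
    have : (2 : ℤ) * (-1) ^ j ≠ 0 := by positivity
    exact (mul_ne_zero this hcb) hc.symm
  have hfin : FiniteMultiplicity (p : ℤ) (a (j + 1)) := by
    rw [Int.finiteMultiplicity_iff]
    refine ⟨?_, hne⟩
    rw [Int.natAbs_natCast]
    exact hp.one_lt.ne'
  obtain ⟨w, hw, hpw⟩ := hfin.exists_eq_pow_mul_and_not_dvd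
  obtain ⟨v, hv⟩ : ∃ v, v = multiplicity (p : ℤ) (a (j + 1)) := ⟨_, rfl⟩
  rw [← hv] at hw
  -- `p ^ v` divides the central binomial coefficient
  have hd1 : (p : ℤ) ^ v ∣ 2 * (Nat.centralBinom j : ℤ) := by
    have h1 : (p : ℤ) ^ v ∣ 2 * (-1) ^ j * (Nat.centralBinom j : ℤ) := by
      rw [← hc, hw]
      exact ⟨((j : ℤ) + 1) * w, by ring⟩
    have h2 : (2 : ℤ) * (Nat.centralBinom j : ℤ) = (-1) ^ j * (2 * (-1) ^ j * (Nat.centralBinom j : ℤ)) := by
      have h3 : ((-1 : ℤ) ^ j) * ((-1 : ℤ) ^ j) = 1 := by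
        rw [← mul_pow]; norm_num
      linear_combination (-(2 : ℤ) * (Nat.centralBinom j : ℤ)) * h3
    rw [h2]
    exact Dvd.dvd.mul_left h1 _
  have hd2 : p ^ v ∣ 2 * Nat.centralBinom j := by
    exact_mod_cast hd1
  have hcop : Nat.Coprime (p ^ v) 2 := by
    apply Nat.Coprime.pow_left
    exact Nat.Coprime.symm (Nat.coprime_two_left.mpr hodd)
  have hd3 : p ^ v ∣ Nat.centralBinom j := hcop.dvd_of_dvd_mul_left hd2
  have hle : p ^ v ≤ 2 * (j + 1) := by
    rcases Nat.eq_zero_or_pos j with hj | hj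
    · rw [hj, Nat.centralBinom_zero, Nat.dvd_one] at hd3
      rw [hd3]; omega
    · have h1 : v ≤ (Nat.centralBinom j).factorization p :=
        (hp.pow_dvd_iff_le_factorization (Nat.centralBinom_ne_zero j)).mp hd3
      have h2 : p ^ (Nat.choose (2 * j) j).factorization p ≤ 2 * j :=
        Nat.pow_factorization_choose_le (by omega)
      rw [Nat.centralBinom_eq_two_mul_choose] at h1
      have h3 : p ^ v ≤ p ^ (Nat.choose (2 * j) j).factorization p :=
        Nat.pow_le_pow_right hp.pos h1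
      omega
  have hp3 : 3 ≤ p := by
    have h2 := hp.two_le
    rcases hodd with ⟨k, hk⟩
    omega
  have hv2 : v < 2 * m := by
    have h1 : p ^ v < p ^ (2 * m) := lt_of_le_of_lt hle h2i
    exact (Nat.pow_lt_pow_iff_right hp.one_lt).mp h1
  have hvj : v ≤ j + 1 := by
    have h1 := P_VALB.two_mul_le v
    have h2 : 3 ^ v ≤ p ^ v := Nat.pow_le_pow_left hp3 v
    omega
  obtain ⟨l, hl⟩ : ∃ l, 2 * m = v + (l + 1) := ⟨2 * m - v - 1, by omega⟩
  have hmul : v + (j + 1) + m ≤ 2 * m * (j + 1) + 1 := by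
    have h1 : (2 * j + 1) * 1 ≤ (2 * j + 1) * m := Nat.mul_le_mul_left _ hm
    have h2 : 2 * m * (j + 1) = (2 * j + 1) * m + m := by ring
    omega
  refine ⟨w + (p : ℤ) ^ (l + 1) * y * M a ((p : ℤ) ^ (2 * m) * y) j, 2 * m * (j + 1) - m - v, ?_, ?_, ?_, ?_⟩
  · intro h
    apply hpw
    have h1 : (p : ℤ) ∣ (p : ℤ) ^ (l + 1) * y * M a ((p : ℤ) ^ (2 * m) * y) j := by
      rw [pow_succ]
      exact ⟨(p : ℤ) ^ l * y * M a ((p : ℤ) ^ (2 * m) * y) j, by ring⟩
    exact (dvd_add_left h1).mp h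
  · omega
  · omega
  · obtain ⟨r, hr⟩ : ∃ r, r = 2 * m * (j + 1) - m - v := ⟨_, rfl⟩
    rw [← hr]
    have e1 : v + m + r = 2 * m * (j + 1) := by omega
    rw [P_VALB.M_succ]
    have e2 : (p : ℤ) ^ (2 * m * (j + 1)) = (p : ℤ) ^ v * (p : ℤ) ^ m * (p : ℤ) ^ r := by
      rw [← e1, pow_add, pow_add]
    have e3 : (p : ℤ) ^ (2 * m) = (p : ℤ) ^ v * (p : ℤ) ^ (l + 1) := by
      rw [hl, pow_add]
    rw [e2]
    obtain ⟨Z, hZ⟩ : ∃ Z, Z = M a ((p : ℤ) ^ (2 * m) * y) j := ⟨_, rfl⟩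
    rw [← hZ, hw, e3]
    ring

end Pool.Agent.H609.RI
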