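import Pool.Agent.H609.RI.Stm2

/-! `VALD`: the exact powers of `p` in the partial sums, `p ^ k` dividing `d` exactly. -/

set_option autoImplicit false

namespace Pool.Agent.H609.RI

open Finset

namespace P_VALD

theorem M_succ (a : ℕ → ℤ) (Q : ℤ) (i : ℕ) : M a Q (i + 1) = a (i + 1) + Q * M a Q i := by
  unfold M
  rw [sum_range_succ, Nat.sub_self, pow_zero, mul_one, add_comm, mul_sum]
  congr 1
  apply sum_congr rfl
  intro k hk
  rw [mem_range] at hk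
  have e : i + 1 - k = (i - k) + 1 := by omega
  rw [e, pow_succ]
  ring

theorem exact_pow {p : ℕ} (hp : p.Prime) {n : ℤ} (hn : n ≠ 0) :
    ∃ (v : ℕ) (U : ℤ), ¬ (p : ℤ) ∣ U ∧ n = (p : ℤ) ^ v * U := by
  have hf : FiniteMultiplicity (p : ℤ) n := by
    rw [Int.finiteMultiplicity_iff]
    refine ⟨?_, hn⟩
    rw [Int.natAbs_natCast]
    exact hp.ne_one
  obtain ⟨U, h1, h2⟩ := hf.exists_eq_pow_mul_and_not_dvd
  exact ⟨_, U, h2, h1⟩

theorem pow_le {p : ℕ} (hp : p.Prime) {s t : ℕ} {A B : ℤ}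
    (hA : ¬ (p : ℤ) ∣ A) (h : (p : ℤ) ^ s * A = (p : ℤ) ^ t * B) : t ≤ s := by
  by_contra hst
  push Not at hst
  apply hA
  have hp0 : (p : ℤ) ≠ 0 := by exact_mod_cast hp.ne_zero
  have e : (p : ℤ) ^ t = (p : ℤ) ^ s * (p : ℤ) ^ (t - s) := by
    rw [← pow_add]
    congr 1
    omega
  rw [e, mul_assoc] at h
  have h1 := mul_left_cancel₀ (pow_ne_zero s hp0) h
  rw [h1]
  exact Dvd.dvd.mul_right (dvd_pow_self _ (by omega)) _

theorem inv {p d k : ℕ} {a : ℕ → ℤ} (hp : p.Prime) (hk : 1 ≤ k) {D : ℤ}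
    (hD : (d : ℤ) = (p : ℤ) ^ k * D) (hpD : ¬ (p : ℤ) ∣ D) (ha : Coef d a) (y : ℤ) (i : ℕ) :
    ∃ (v : ℕ) (U V : ℤ), v ≤ k * i ∧ ¬ (p : ℤ) ∣ U ∧ ¬ (p : ℤ) ∣ V ∧ a i = (p : ℤ) ^ v * U ∧
      M a ((d : ℤ) ^ 2 * y) i = (p : ℤ) ^ v * V := by
  have hpp : Prime (p : ℤ) := Nat.prime_iff_prime_int.1 hp
  have hpd : (p : ℤ) ∣ (d : ℤ) := by
    rw [hD]
    exact Dvd.dvd.mul_right (dvd_pow_self _ (by omega)) _
  obtain ⟨h0, hrec, -⟩ := ha
  induction i with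
  | zero =>
    refine ⟨0, 1, 1, Nat.zero_le _, ?_, ?_, ?_, ?_⟩
    · exact hpp.not_dvd_one
    · exact hpp.not_dvd_one
    · rw [h0]
      norm_num
    · unfold M
      simp [h0]
  | succ i ih =>
    obtain ⟨v, U, V, hv, hU, hV, e1, e2⟩ := ih
    have h1 : ¬ (p : ℤ) ∣ 1 - (d : ℤ) * i := by
      intro h
      apply hpp.not_dvd_one
      have := dvd_add h (hpd.mul_right (i : ℤ))
      rwa [sub_add_cancel] at this
    have h2 : ¬ (p : ℤ) ∣ (1 - (d : ℤ) * i) * U * D := by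
      intro h
      rcases hpp.dvd_or_dvd h with h | h
      · rcases hpp.dvd_or_dvd h with h | h
        · exact h1 h
        · exact hU h
      · exact hpD h
    have e3 : ((i : ℤ) + 1) * a (i + 1) =
        (p : ℤ) ^ (v + k) * ((1 - (d : ℤ) * i) * U * D) := by
      rw [hrec, e1]
      have e4 : (d : ℤ) * (1 - (d : ℤ) * i) * ((p : ℤ) ^ v * U) =
          (d : ℤ) * ((1 - (d : ℤ) * i) * ((p : ℤ) ^ v * U)) := by ring
      rw [e4]
      nth_rewrite 1 [hD]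
      ring
    have h3 : a (i + 1) ≠ 0 := by
      intro h
      rw [h, mul_zero] at e3
      have h4 : (p : ℤ) ^ (v + k) ≠ 0 := pow_ne_zero _ hpp.ne_zero
      have h5 : (1 - (d : ℤ) * i) * U * D ≠ 0 := fun h6 => h2 (h6 ▸ dvd_zero _)
      exact mul_ne_zero h4 h5 e3.symm
    obtain ⟨v', U', hU', e4⟩ := exact_pow hp h3
    have h4 : v' ≤ v + k := by
      apply pow_le hp h2 (B := ((i : ℤ) + 1) * U')
      rw [← e3, e4]
      ring
    have h6 : k * (i + 1) = k * i + k := by ring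
    refine ⟨v', U', U' + (p : ℤ) ^ (v + 2 * k - v') * (D ^ 2 * y * V), by omega, hU', ?_, e4, ?_⟩
    · intro h
      apply hU'
      have h5 : (p : ℤ) ∣ (p : ℤ) ^ (v + 2 * k - v') * (D ^ 2 * y * V) :=
        Dvd.dvd.mul_right (dvd_pow_self _ (by omega)) _
      exact (dvd_add_left h5).1 h
    · rw [M_succ, e2, e4, hD]
      have e : (p : ℤ) ^ (2 * k) * (p : ℤ) ^ v = (p : ℤ) ^ v' * (p : ℤ) ^ (v + 2 * k - v') := by
        rw [← pow_add, ← pow_add]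
        congr 1
        omega
      have e5 : ((p : ℤ) ^ k * D) ^ 2 = (p : ℤ) ^ (2 * k) * D ^ 2 := by
        rw [mul_pow, ← pow_mul, mul_comm k 2]
      rw [e5]
      linear_combination (D ^ 2 * y * V) * e

end P_VALD

theorem t_VALD : S_VALD := by
  intro p d k a hp hd hk h1 h2 ha y i
  obtain ⟨D, hD⟩ := h1
  have hpD : ¬ (p : ℤ) ∣ (D : ℤ) := by
    intro h
    apply h2
    obtain ⟨E, rfl⟩ := Int.natCast_dvd_natCast.1 h
    exact ⟨E, by rw [hD, pow_succ]; ring⟩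
  have hDz : (d : ℤ) = (p : ℤ) ^ k * (D : ℤ) := by
    rw [hD]
    push_cast
    ring
  obtain ⟨v, U, V, hv, -, hV, -, e⟩ := P_VALD.inv hp hk hDz hpD ha y i
  have h3 : i ≤ k * i := Nat.le_mul_of_pos_left i (by omega)
  have h4 : 2 * k * i = k * i + k * i := by ring
  refine ⟨V, 2 * k * i - v, hV, by omega, by omega, ?_⟩
  rw [e]
  have e2 : (p : ℤ) ^ v * (p : ℤ) ^ (2 * k * i - v) = (p : ℤ) ^ (2 * k * i) := by
    rw [← pow_add]
    congr 1
    omega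
  linear_combination V * e2

end Pool.Agent.H609.RI
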