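import Pool.Agent.H609.RI.Stm

/-! Project RI: ZER. -/

set_option autoImplicit false

namespace Pool.Agent.H609.RI

open Finset

namespace P_ZER

theorem digit {b : ℕ} (hb : 2 ≤ b) {X : ℝ} {z : ℤ} (h : |X - z| < 1 / (b : ℝ)) :
    ⌊(b : ℝ) * Int.fract X⌋ = 0 ∨ ⌊(b : ℝ) * Int.fract X⌋ = (b : ℤ) - 1 := by
  have hb0 : (0 : ℝ) < b := by
    have : 0 < b := by omega
    exact_mod_cast this
  have hb1 : (1 : ℝ) ≤ b := by
    have : 1 ≤ b := by omega
    exact_mod_cast this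
  have hb2 : 1 / (b : ℝ) ≤ 1 := by
    rw [div_le_one hb0]
    exact hb1
  obtain ⟨h1, h2⟩ := abs_lt.1 h
  have hbb : (b : ℝ) * (1 / (b : ℝ)) = 1 := by
    field_simp
  rcases le_or_gt (z : ℝ) X with hz | hz
  · left
    have hf : ⌊X⌋ = z := Int.floor_eq_iff.2 ⟨hz, by linarith⟩
    have hfr : Int.fract X = X - z := by
      unfold Int.fract
      rw [hf]
    rw [hfr, Int.floor_eq_iff]
    constructor
    · push_cast
      exact mul_nonneg hb0.le (by linarith)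
    · push_cast
      have := mul_lt_mul_of_pos_left h2 hb0
      linarith
  · right
    have hf : ⌊X⌋ = z - 1 := Int.floor_eq_iff.2 ⟨by push_cast; linarith, by push_cast; linarith⟩
    have hfr : Int.fract X = X - z + 1 := by
      unfold Int.fract
      rw [hf]
      push_cast
      ring
    rw [hfr, Int.floor_eq_iff]
    constructor
    · push_cast
      have := mul_lt_mul_of_pos_left h1 hb0
      linarith
    · push_cast
      have := mul_lt_mul_of_pos_left hz hb0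
      linarith

/-- the position of an exceptional place -/
def phi (d n e I : ℕ) (q : ℕ × ℕ) : ℕ :=
  if q.2 < 2 * e * I then d * n * q.1 + q.2 - n else d * n * q.1 + (d * n - 1 - (q.2 - 2 * e * I)) - n

theorem count {d n N e : ℕ} (hn : 1 ≤ n) (hd : 2 ≤ d) (E : Set ℕ)
    (hE : ∀ j ∈ E, j < N ∧ ((j + n) % (d * n) < 2 * e * ((j + n) / (d * n)) ∨
      d * n < (j + n) % (d * n) + 3)) :
    ((E.ncard : ℕ) : ℝ) ≤ (8 * (e : ℝ) + 8) * ((N : ℝ) / n + 1) ^ 2 := by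
  have hdn : 0 < d * n := Nat.mul_pos (by omega) (by omega)
  obtain ⟨I, hI⟩ : ∃ I : ℕ, I = (N + n) / (d * n) := ⟨_, rfl⟩
  have hsub : E ⊆ ↑(Finset.image (phi d n e I) (range (I + 1) ×ˢ range (2 * e * I + 2))) := by
    intro j hj
    obtain ⟨h1, h2⟩ := hE j hj
    rw [Finset.coe_image]
    have hi : (j + n) / (d * n) ≤ I := by
      rw [hI]
      exact Nat.div_le_div_right (by omega)
    have hdm := Nat.div_add_mod (j + n) (d * n)
    have hml := Nat.mod_lt (j + n) hdn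
    obtain ⟨i, hid⟩ : ∃ i, i = (j + n) / (d * n) := ⟨_, rfl⟩
    obtain ⟨t, htd⟩ : ∃ t, t = (j + n) % (d * n) := ⟨_, rfl⟩
    obtain ⟨w, hw⟩ : ∃ w, w = d * n := ⟨_, rfl⟩
    rw [← hid] at hi
    rw [← hid, ← htd] at h2 hdm
    rw [← htd] at hml
    have hei : 2 * e * i ≤ 2 * e * I := Nat.mul_le_mul_left _ hi
    rw [← hw] at h2 hdm hml
    rcases h2 with h3 | h3
    · refine ⟨(i, t), ?_, ?_⟩
      · rw [Finset.mem_coe, mem_product, mem_range, mem_range]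
        simp only
        omega
      · unfold phi
        simp only
        rw [← hw, if_pos (by omega)]
        omega
    · refine ⟨(i, 2 * e * I + (w - 1 - t)), ?_, ?_⟩
      · rw [Finset.mem_coe, mem_product, mem_range, mem_range]
        simp only
        omega
      · unfold phi
        simp only
        rw [← hw, if_neg (by omega)]
        omega
  have hcard : E.ncard ≤ (I + 1) * (2 * e * I + 2) := by
    refine (Set.ncard_le_ncard hsub (Finset.finite_toSet _)).trans ?_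
    rw [Set.ncard_coe_finset]
    refine card_image_le.trans ?_
    rw [card_product, card_range, card_range]
  have hn0 : (0 : ℝ) < n := by exact_mod_cast hn
  obtain ⟨X, hX⟩ : ∃ X : ℝ, X = (N : ℝ) / n + 1 := ⟨_, rfl⟩
  have hX1 : 1 ≤ X := by
    rw [hX]
    have : (0 : ℝ) ≤ (N : ℝ) / n := by positivity
    linarith
  have hIX : (I : ℝ) ≤ X := by
    have h1 : (I : ℝ) ≤ ((N + n : ℕ) : ℝ) / ((d * n : ℕ) : ℝ) := by
      rw [hI]
      exact Nat.cast_div_le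
    refine h1.trans ?_
    rw [hX, div_le_iff₀ (by exact_mod_cast hdn)]
    push_cast
    have h2 : ((N : ℝ) / n + 1) * (d * n) = d * (N + n) := by
      field_simp
    rw [h2]
    have h3 : (1 : ℝ) ≤ d := by
      have : 1 ≤ d := by omega
      exact_mod_cast this
    have h4 : (0 : ℝ) ≤ (N : ℝ) + n := by positivity
    nlinarith
  have h5 : ((E.ncard : ℕ) : ℝ) ≤ ((I : ℝ) + 1) * (2 * e * I + 2) := by exact_mod_cast hcard
  rw [← hX]
  refine h5.trans ?_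
  have he : (0 : ℝ) ≤ e := Nat.cast_nonneg e
  have hI0 : (0 : ℝ) ≤ I := Nat.cast_nonneg I
  have h6 : (I : ℝ) + 1 ≤ 2 * X := by linarith
  have h7 : 2 * (e : ℝ) * I + 2 ≤ (2 * e + 2) * X := by nlinarith
  calc ((I : ℝ) + 1) * (2 * e * I + 2) ≤ (2 * X) * ((2 * e + 2) * X) :=
        mul_le_mul h6 h7 (by positivity) (by positivity)
    _ ≤ (8 * (e : ℝ) + 8) * X ^ 2 := by nlinarith [sq_nonneg X]

end P_ZER

open P_ZER in
theorem t_ZER (hr : S_ROOT) (ht : S_TAIL) : S_ZER := by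
  intro b d hb hd hbe
  obtain ⟨e, he⟩ := hbe
  obtain ⟨a, ha, hroot⟩ := hr d (by omega)
  refine ⟨8 * (e : ℝ) + 8, by positivity, ?_⟩
  intro n N hn
  refine count hn hd _ ?_
  rintro j ⟨hjN, hj1, hj2⟩
  refine ⟨hjN, ?_⟩
  by_contra hcon
  push Not at hcon
  obtain ⟨hc1, hc2⟩ := hcon
  obtain ⟨i, hi⟩ : ∃ i, i = (j + n) / (d * n) := ⟨_, rfl⟩
  obtain ⟨t, htd⟩ : ∃ t, t = (j + n) % (d * n) := ⟨_, rfl⟩
  have hdm : d * n * i + t = j + n := by
    rw [hi, htd]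
    exact Nat.div_add_mod _ _
  rw [← hi, ← htd] at hc1
  rw [← htd] at hc2
  have hb0 : (0 : ℝ) < b := by
    have : 0 < b := by omega
    exact_mod_cast this
  have hb1 : (1 : ℝ) ≤ b := by
    have : 1 ≤ b := by omega
    exact_mod_cast this
  have hb2 : (2 : ℝ) ≤ b := by exact_mod_cast hb
  have hd0 : (0 : ℝ) < d := by
    have : 0 < d := by omega
    exact_mod_cast this
  obtain ⟨Q, hQ⟩ : ∃ Q : ℤ, Q = (d : ℤ) ^ 2 * (b : ℤ) ^ (d * n) := ⟨_, rfl⟩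
  have hdn : 2 ≤ d * n := by nlinarith
  have hbpow : (4 : ℤ) ≤ (b : ℤ) ^ (d * n) := by
    have h1 : (2 : ℤ) ^ 2 ≤ (b : ℤ) ^ (d * n) := by
      calc (2 : ℤ) ^ 2 ≤ (b : ℤ) ^ 2 := by
            refine pow_le_pow_left₀ (by norm_num) ?_ 2
            exact_mod_cast hb
        _ ≤ (b : ℤ) ^ (d * n) := by
            refine pow_le_pow_right₀ ?_ hdn
            have : 1 ≤ b := by omega
            exact_mod_cast this
    linarith
  have hQ4 : 4 * (d : ℤ) ^ 2 ≤ Q := by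
    rw [hQ, mul_comm]
    exact mul_le_mul_of_nonneg_left hbpow (by positivity)
  have hQr : ((Q : ℤ) : ℝ) = (d : ℝ) ^ 2 * (b : ℝ) ^ (d * n) := by
    rw [hQ]
    push_cast
    ring
  have hQ0 : (0 : ℝ) < ((Q : ℤ) : ℝ) := by
    rw [hQr]
    positivity
  have hx4 : 4 * (d : ℝ) ^ 2 * (((Q : ℤ) : ℝ))⁻¹ ≤ 1 := by
    rw [← div_eq_mul_inv, div_le_one hQ0]
    exact_mod_cast hQ4
  obtain ⟨S, hS⟩ : ∃ S : ℝ, S = (1 + (d : ℝ) ^ 2 * (((Q : ℤ) : ℝ))⁻¹) ^ (1 / (d : ℝ)) := ⟨_, rfl⟩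
  have hsum := hroot _ (inv_nonneg.2 hQ0.le) hx4
  rw [← hS] at hsum
  have htail := ht d a (by omega) ha Q hQ4 S hsum i
  -- the root
  obtain ⟨α, hα⟩ : ∃ α : ℝ, α = (((b : ℝ) ^ n) ^ d + 1) ^ (1 / (d : ℝ)) := ⟨_, rfl⟩
  rw [← hα] at hj1 hj2
  have hαS : α = (b : ℝ) ^ n * S := by
    have h1 : ((b : ℝ) ^ n) ^ d + 1 = ((b : ℝ) ^ n) ^ d * (1 + (d : ℝ) ^ 2 * (((Q : ℤ) : ℝ))⁻¹) := by
      rw [hQr, ← pow_mul, mul_comm n d]
      field_simp
    rw [hα, h1, Real.mul_rpow (by positivity) (by positivity), ← hS]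
    congr 1
    rw [one_div]
    exact Real.pow_rpow_inv_natCast (by positivity) (by omega)
  -- the integer
  have hdvd : (d : ℤ) ^ (2 * i) ∣ (b : ℤ) ^ t := by
    have h1 : d ^ (2 * i) ∣ b ^ t := by
      have h2 : d ^ (2 * i) ∣ (b ^ e) ^ (2 * i) := pow_dvd_pow_of_dvd he _
      rw [← pow_mul] at h2
      refine h2.trans (pow_dvd_pow b ?_)
      calc e * (2 * i) = 2 * e * i := by ring
        _ ≤ t := hc1
    exact_mod_cast h1
  obtain ⟨m, hm⟩ := hdvd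
  have hmr : (b : ℝ) ^ t = (d : ℝ) ^ (2 * i) * (m : ℝ) := by exact_mod_cast hm
  -- the approximation
  have hd2i : (0 : ℝ) < (d : ℝ) ^ (2 * i) := by positivity
  have hkey : (b : ℝ) ^ j * α = (m : ℝ) * (S * ((Q : ℤ) : ℝ) ^ i) := by
    have h1 : (d : ℝ) ^ (2 * i) * ((b : ℝ) ^ j * α) = (b : ℝ) ^ t * (S * ((Q : ℤ) : ℝ) ^ i) := by
      have h2 : (b : ℝ) ^ j * (b : ℝ) ^ n = (b : ℝ) ^ t * ((b : ℝ) ^ (d * n)) ^ i := by
        rw [← pow_add, ← pow_mul, ← pow_add, ← hdm]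
        congr 1
        ring
      rw [hαS, hQr, mul_pow, ← pow_mul]
      linear_combination ((d : ℝ) ^ (2 * i) * S) * h2
    rw [hmr, mul_assoc] at h1
    exact mul_left_cancel₀ hd2i.ne' h1
  have hm0 : (0 : ℝ) < (m : ℝ) := by
    have h1 : (0 : ℝ) < (d : ℝ) ^ (2 * i) * (m : ℝ) := by
      rw [← hmr]
      positivity
    exact (mul_pos_iff_of_pos_left hd2i).1 h1
  have happ : |(b : ℝ) ^ j * α - ((m * M a Q i : ℤ) : ℝ)| < 1 / (b : ℝ) := by
    have h1 : (b : ℝ) ^ j * α - ((m * M a Q i : ℤ) : ℝ) =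
        (m : ℝ) * (S * ((Q : ℤ) : ℝ) ^ i - ((M a Q i : ℤ) : ℝ)) := by
      rw [hkey]
      push_cast
      ring
    rw [h1, abs_mul, abs_of_pos hm0]
    have h2 : (m : ℝ) * |S * ((Q : ℤ) : ℝ) ^ i - ((M a Q i : ℤ) : ℝ)| ≤
        (m : ℝ) * (2 * (d : ℝ) ^ (2 * (i + 1)) / ((Q : ℤ) : ℝ)) :=
      mul_le_mul_of_nonneg_left htail hm0.le
    refine lt_of_le_of_lt h2 ?_
    have h3 : (m : ℝ) * (2 * (d : ℝ) ^ (2 * (i + 1)) / ((Q : ℤ) : ℝ)) =
        2 * (b : ℝ) ^ t / (b : ℝ) ^ (d * n) := by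
      rw [hQr, hmr, show 2 * (i + 1) = 2 * i + 2 by ring, pow_add]
      field_simp
    rw [h3, div_lt_div_iff₀ (by positivity) hb0, one_mul]
    obtain ⟨l, hl⟩ : ∃ l, d * n = t + 3 + l := ⟨d * n - (t + 3), by omega⟩
    rw [hl, pow_add, pow_add]
    have h4 : (1 : ℝ) ≤ (b : ℝ) ^ l := one_le_pow₀ hb1
    have h5 : (0 : ℝ) < (b : ℝ) ^ t := by positivity
    have h6 : 2 * (b : ℝ) < (b : ℝ) ^ 3 := by
      have hb2 : (2 : ℝ) ≤ (b : ℝ) := by exact_mod_cast hb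
      have h60 : (4 : ℝ) ≤ (b : ℝ) ^ 2 := by nlinarith
      have h61 : (4 : ℝ) * b ≤ (b : ℝ) ^ 2 * b := mul_le_mul_of_nonneg_right h60 hb0.le
      calc 2 * (b : ℝ) < 4 * b := by linarith
        _ ≤ (b : ℝ) ^ 2 * b := h61
        _ = (b : ℝ) ^ 3 := by ring
    calc 2 * (b : ℝ) ^ t * b = (b : ℝ) ^ t * (2 * b) := by ring
      _ < (b : ℝ) ^ t * (b : ℝ) ^ 3 := mul_lt_mul_of_pos_left h6 h5
      _ ≤ (b : ℝ) ^ t * (b : ℝ) ^ 3 * (b : ℝ) ^ l := le_mul_of_one_le_right (by positivity) h4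
  rcases digit hb happ with h | h
  · exact hj1 h
  · exact hj2 h

end Pool.Agent.H609.RI
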