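import Pool.Agent.H609.RI.P_ROOT
import Pool.Agent.H609.RI.P_BK1
import Pool.Agent.H609.RI.P_BK2
import Pool.Agent.H609.RI.P_VALB
import Pool.Agent.H609.RI.P_TAIL
import Pool.Agent.H609.RI.P_FB
import Pool.Agent.H609.RI.P_ZER
import Pool.Agent.H609.RI.P_RUN2
import Pool.Agent.H609.RI.P_ORD2
import Pool.Agent.H609.RI.P_BKD1
import Pool.Agent.H609.RI.P_BKD2
import Pool.Agent.H609.RI.P_VALD
import Pool.Agent.H609.RI.P_SPL
import Pool.Agent.H609.RI.P_FD
import Pool.Agent.H609.RI.Degree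

/-!
# The initial digits of explicit roots of integers
-/

set_option autoImplicit false

namespace Pool.Agent.H609.RI

theorem bk2 : S_BK2 := t_BK2 t_BK1
theorem bkd2 : S_BKD2 := t_BKD2 (t_BKD1 t_RUN2 t_ORD2)
theorem fb : S_FB := t_FB t_ROOT t_TAIL t_VALB bk2
theorem fd : S_FD := t_FD t_ROOT t_TAIL t_VALD bkd2 t_SPL
theorem zer : S_ZER := t_ZER t_ROOT t_TAIL

end Pool.Agent.H609.RI
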