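import Pool.Agent.H609.RI.Stm

/-!
# The initial digits of the roots of explicit integers: statements, part 2

Aim: for all `b, d ≥ 2` such that some prime factor of `d` does not divide `b` the first `N` digits of
`((b ^ n) ^ d + 1) ^ (1 / d)` are equidistributed, with error `O(n)`, for all `N ≤ c n log n`. Part 1 has this for
`d = p` an odd prime (statement `S_FA`). Now the denominators are `p ^ r * H` with `p ∤ H`.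
-/

set_option autoImplicit false

namespace Pool.Agent.H609.RI

open Finset
open Pool.Agent.H609.XP (Er)

/-- **RUN2**, a generalization of `XP.run` (file `Pool/Agent/H609/XP/Count.lean`, copy its proof): the modulus is
`p ^ r * H` instead of `p ^ r`, and `p = 2` is allowed if `a ≥ 2`.

Changes. `pow_inj`: for `p = 2` and `u ≡ 1` modulo `4` the exact power of `2` in `u ^ δ - 1` is that of `u - 1` plus
that of `δ` (`Int.two_pow_sub_pow` for even `δ`, `u + 1 ≡ 2` modulo `4`; for odd `δ` the second factor of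
`u ^ δ - 1 = (u - 1) (1 + u + ⋯ + u ^ (δ - 1))` is odd; or prove directly by induction that
`2 ^ r ∣ u ^ δ - 1` implies `2 ^ (r - a) ∣ δ`). `run`: `Q = p ^ r * H`, the residues `ρ m = (V * u ^ m) % Q` are not
divisible by `p`, so `1 ≤ ρ m`; they are distinct already modulo `p ^ r`; all are `≡ V` modulo `p ^ a * H`
(`u ≡ 1` modulo `p ^ a` and modulo `H`, coprime); the number of the `x ∈ [0, Q)` with `x ≡ V` modulo `p ^ a * H` is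
`p ^ (r - a)`; `class_count` with `q = p ^ a * H`. -/
def S_RUN2 : Prop := ∀ (p : ℕ), p.Prime → ∀ (a : ℕ) (u w : ℤ) (H : ℕ), 1 ≤ a → (p = 2 → 2 ≤ a) →
  u = 1 + (p : ℤ) ^ a * w → ¬ (p : ℤ) ∣ w → 1 ≤ H → ¬ p ∣ H → (H : ℤ) ∣ u - 1 →
  ∀ r : ℕ, a ≤ r → ∀ V : ℤ, ¬ (p : ℤ) ∣ V → ∀ c : ℕ → ℝ,
    (∀ m < p ^ (r - a), |c m - ((V * u ^ m : ℤ) : ℝ) / ((p : ℝ) ^ r * H)| ≤
      1 / (2 * ((p : ℝ) ^ r * H))) →
    ∀ y : ℝ, 0 ≤ y → y ≤ 1 →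
      |((({m ∈ range (p ^ (r - a)) | Int.fract (c m) < y} : Finset ℕ).card : ℕ) : ℝ) -
        (p : ℝ) ^ (r - a) * y| ≤ 3

/-- **ORD2**. Proof. `E = 2 * φ(P)`. For `H ∣ P ^ k` all prime factors of `H` divide `P`, so
`φ(P * H) = H * φ(P)` (induction on the prime factors of `H`, `Nat.totient_mul_of_prime_of_dvd`), hence
`b ^ (E * H) ≡ 1` modulo `P * H` (`Nat.ModEq.pow_totient`). Let `p ^ a` be the exact power of `p` in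
`b ^ E - 1 > 0`; `a ≥ 1` as `p ∣ P`; if `p = 2` then `b` is odd, `E` even, so `8 ∣ b ^ E - 1`. Finally
`b ^ (E H) - 1 = (b ^ E - 1) * ∑_{l < H} (b ^ E) ^ l` and the last sum is `≡ H ≢ 0` modulo `p`. -/
def S_ORD2 : Prop := ∀ (b P p : ℕ), 2 ≤ b → 1 ≤ P → Nat.Coprime b P → p.Prime → p ∣ P →
  ∃ E a : ℕ, 1 ≤ E ∧ 1 ≤ a ∧ (p = 2 → 2 ≤ a) ∧ ∀ H k : ℕ, 1 ≤ H → H ∣ P ^ k → ¬ p ∣ H →
    ∃ w : ℤ, (b : ℤ) ^ (E * H) = 1 + (p : ℤ) ^ a * w ∧ ¬ (p : ℤ) ∣ w ∧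
      (H : ℤ) ∣ (b : ℤ) ^ (E * H) - 1

/-- **BKD1** (one block): `S_RUN2 → S_ORD2 → S_BKD1`. Adaptation of `t_BK1` (file `P_BK1.lean`, in the archive).
`E, a` from `S_ORD2`, `C = 3 p ^ a + E + 1`. If `r < a`: `|Er| ≤ L ≤ p ^ a L / p ^ r`. If `r ≥ a`: `t = E * H`,
`T = t * p ^ (r - a)`; for all `s` with `A ≤ s`, `s + T + g ≤ A + n` one has `|Er x y s T| ≤ 3 t` by `XP.Er_run` and
`S_RUN2` (with `u = b ^ t`, `V b ^ (s - A + i)` in place of `V`); `XP.Er_block` gives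
`|Er x y s L| ≤ 3 t (L / T) + T + g = 3 L / p ^ (r - a) + E H p ^ (r - a) + g`. -/
def S_BKD1 : Prop := ∀ (b P p : ℕ), 2 ≤ b → 1 ≤ P → Nat.Coprime b P → p.Prime → p ∣ P →
  ∃ C : ℝ, 0 < C ∧ ∀ (n g A r H k : ℕ) (x : ℕ → ℝ) (V : ℤ),
    1 ≤ H → H ∣ P ^ k → ¬ p ∣ H → ¬ (p : ℤ) ∣ V →
    (∀ t, t < n → t + g ≤ n →
      |x (A + t) - (b : ℝ) ^ t * ((V : ℤ) : ℝ) / ((p : ℝ) ^ r * H)| ≤ 1 / (2 * ((p : ℝ) ^ r * H))) →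
    ∀ y : ℝ, 0 ≤ y → y ≤ 1 → ∀ s L : ℕ, A ≤ s → s + L ≤ A + n →
      |Er x y s L| ≤ C * (L / (p : ℝ) ^ r + (p : ℝ) ^ r * H + g)

/-- **BKD2** (all blocks): `S_BKD1 → S_BKD2`. Adaptation of `t_BK2` (file `P_BK2.lean`, in the archive). The first
`h i` places of the block `i` are not controlled. In the block `i`, `1 ≤ i ≤ I`, apply `S_BKD1` with
`A = n i - o + h i`, the length `n - h i` and `g = 4 + W i`: if `t + g ≤ n`, then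
`8 b ^ t / b ^ n ≤ 8 / 2 ^ (4 + W i) ≤ 1 / (2 W ^ i) ≤ 1 / (2 p ^ r_i H_i)`, because `W ≤ 2 ^ W`. So every window in
the block has `|Er| ≤ h i + C₁ (n / p ^ r_i + W ^ i + 4 + W i)`. The rest is as in `t_BK2`. -/
def S_BKD2 : Prop := ∀ (b P p : ℕ), 2 ≤ b → 1 ≤ P → Nat.Coprime b P → p.Prime → p ∣ P →
  ∃ C : ℝ, 0 < C ∧ ∀ (h W I n o : ℕ) (x : ℕ → ℝ) (V : ℕ → ℤ) (r H : ℕ → ℕ),
    1 ≤ W → 0 < n → o ≤ n →
    (∀ i, 1 ≤ i → i ≤ I → 1 ≤ H i ∧ (∃ k, H i ∣ P ^ k) ∧ ¬ p ∣ H i ∧ ¬ (p : ℤ) ∣ V i ∧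
      i ≤ r i + 1 ∧ p ^ r i * H i ≤ W ^ i ∧
      ∀ t, h * i ≤ t → t < n →
        |x (n * i - o + t) - (b : ℝ) ^ (t - h * i) * ((V i : ℤ) : ℝ) / ((p : ℝ) ^ r i * H i)| ≤
          8 * (b : ℝ) ^ t / (b : ℝ) ^ n) →
    ∀ y : ℝ, 0 ≤ y → y ≤ 1 → ∀ N : ℕ, N + o ≤ n * (I + 1) →
      |Er x y 0 N| ≤ C * (n + (I + 1) * ((h + W) * (I + 1) + (W : ℝ) ^ I))

/-- **VALD**, generalization of `S_VALA` (file `P_VALA.lean`, in the archive): `d` instead of `p`, where `p ^ k`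
divides `d` exactly, `k ≥ 1`. `v (j + 1) + v_p (j + 1) = v j + k` for the exact powers of `p` in `a j`, so
`v (j + 1) ≤ v j + k < v j + 2 k`, `v j ≤ k j`; `r = 2 k i - v i ≥ k i ≥ i`. -/
def S_VALD : Prop := ∀ (p d k : ℕ) (a : ℕ → ℤ), p.Prime → 1 ≤ d → 1 ≤ k → p ^ k ∣ d →
  ¬ p ^ (k + 1) ∣ d → Coef d a → ∀ (y : ℤ) (i : ℕ),
  ∃ (V : ℤ) (r : ℕ), ¬ (p : ℤ) ∣ V ∧ i ≤ r ∧ r ≤ 2 * k * i ∧
    M a ((d : ℤ) ^ 2 * y) i * (p : ℤ) ^ r = V * (p : ℤ) ^ (2 * k * i)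

/-- **SPL**. Proof. `d₁ = gcd d (b ^ d)`, `e = d`, `d₂ = d / d₁`: if a prime `q` divides `b` and `d₂`, then
`q ^ (v_q d) ∣ d ^ 1` and `v_q (b ^ d) ≥ d > v_q d`, so `v_q d₁ = v_q d` and `q ∤ d₂`. (Or strong induction on `d`:
if `g = gcd b d > 1` apply it to `d / g`.) -/
def S_SPL : Prop := ∀ b d : ℕ, 1 ≤ b → 1 ≤ d → ∃ d₁ d₂ e : ℕ, d = d₁ * d₂ ∧ Nat.Coprime b d₂ ∧
  d₁ ∣ b ^ e

/-- **FD**: `S_ROOT → S_TAIL → S_VALD → S_BKD2 → S_SPL → S_FD`. Adaptation of `t_FA` (file `P_FA.lean`, in the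
archive). Proof. Let `p ∣ d`, `p ∤ b`, `p ^ k` the exact power in `d`, `d = d₁ d₂` by `S_SPL`, `d₁ ∣ b ^ e`; as
`p ∤ b ^ e`, `d₂ = p ^ k d'`, `p ∤ d'`, `P = d₂`. `Q = d ^ 2 b ^ (d n)`, `S = (1 + d ^ 2 / Q) ^ (1 / d)`,
`((b ^ n) ^ d + 1) ^ (1 / d) = b ^ n S`. Use `S_BKD2` with the block length `d n`, `o = n`, `h = 2 e`, `W = d ^ 2`,
`H i = d' ^ (2 i)`, `V i = V * (b ^ e / d₁) ^ (2 i)`, `V`, `r i` from `S_VALD` (`y = b ^ (d n)`). For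
`j = d n i - n + t`, `t ≥ 2 e i`: `b ^ j b ^ n S = b ^ t (S Q ^ i) / d ^ (2 i)`, which differs from
`b ^ t M_i / d ^ (2 i) = b ^ (t - 2 e i) V_i / (p ^ r_i H_i)` by at most
`b ^ t / d ^ (2 i) * 2 d ^ (2 (i + 1)) / Q = 2 b ^ t / b ^ (d n)`; `p ^ r_i H_i ≤ d ^ (2 i)`. Take
`I = ⌊log n / (4 log d)⌋₊`, so that `d ^ (2 I) ≤ n ^ (1/2)`. -/
def S_FD : Prop := ∀ (b d p : ℕ), 2 ≤ b → 2 ≤ d → p.Prime → p ∣ d → ¬ p ∣ b →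
  ∃ c C : ℝ, 0 < c ∧ 0 < C ∧ ∃ n₀ : ℕ, ∀ n : ℕ, n₀ ≤ n → ∀ y : ℝ, 0 ≤ y → y ≤ 1 →
    ∀ N : ℕ, (N : ℝ) ≤ c * (n * Real.log n) →
    |Er (fun j => (b : ℝ) ^ j * ((((b : ℝ) ^ n) ^ d + 1) ^ (1 / (d : ℝ)))) y 0 N| ≤ C * n

end Pool.Agent.H609.RI
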